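import Mathlib

set_option autoImplicit false

namespace Pool.Agent.Helper995.U1
open Finset

/-- finite model: `S` is the set `A ∩ [0, L]`, `E` the exceptional set. -/
structure Sys (S E : Finset ℕ) (L : ℕ) : Prop where
  le : ∀ x ∈ S, x ≤ L
  zero : 0 ∈ E
  uniq : ∀ a ∈ S, ∀ b ∈ S, ∀ a' ∈ S, ∀ b' ∈ S, a + b = a' + b' → a + b ∉ E →
    (a = a' ∧ b = b') ∨ (a = b' ∧ b = a')
  cov : ∀ m ≤ L, m ∉ E → ∃ a ∈ S, ∃ b ∈ S, a + b = m

def RR (S : Finset ℕ) (m : ℕ) : ℕ := #{p ∈ S ×ˢ S | p.1 + p.2 = m}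

def dl (S : Finset ℕ) (m : ℕ) : ℕ := #{b ∈ S | 2 * b = m}

lemma RR_le_two {S E : Finset ℕ} {L : ℕ} (h : Sys S E L) {m : ℕ} (hm : m ∉ E) : RR S m ≤ 2 := by
  unfold RR
  rcases Finset.eq_empty_or_nonempty ({p ∈ S ×ˢ S | p.1 + p.2 = m}) with h0 | ⟨q, hq⟩
  · rw [h0]; simp
  · rw [mem_filter, mem_product] at hq
    refine (Finset.card_le_card (t := {q, (q.2, q.1)}) ?_).trans Finset.card_le_two
    intro p hp
    rw [mem_filter, mem_product] at hp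
    rw [mem_insert, mem_singleton]
    rcases h.uniq p.1 hp.1.1 p.2 hp.1.2 q.1 hq.1.1 q.2 hq.1.2 (by omega) (by rw [hp.2]; exact hm) with h1 | h1
    · left; exact Prod.ext h1.1 h1.2
    · right; exact Prod.ext h1.1 h1.2

lemma RR_add_dl {S E : Finset ℕ} {L : ℕ} (h : Sys S E L) {m : ℕ} (hm : m ∉ E) (hL : m ≤ L) :
    RR S m + dl S m = 2 := by
  obtain ⟨a, ha, b, hb, hab⟩ := h.cov m hL hm
  have key : ∀ x ∈ S, ∀ y ∈ S, x + y = m → (x = a ∧ y = b) ∨ (x = b ∧ y = a) := by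
    intro x hx y hy hxy
    exact h.uniq x hx y hy a ha b hb (by omega) (by rw [hxy]; exact hm)
  have hset : {p ∈ S ×ˢ S | p.1 + p.2 = m} = {(a, b), (b, a)} := by
    ext p
    rw [mem_filter, mem_product, mem_insert, mem_singleton]
    constructor
    · rintro ⟨⟨h1, h2⟩, h3⟩
      rcases key _ h1 _ h2 h3 with h4 | h4
      · left; exact Prod.ext h4.1 h4.2
      · right; exact Prod.ext h4.1 h4.2
    · rintro (rfl | rfl)
      · exact ⟨⟨ha, hb⟩, hab⟩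
      · exact ⟨⟨hb, ha⟩, by show b + a = m; omega⟩
  unfold RR dl
  rw [hset]
  by_cases hab' : a = b
  · subst hab'
    have : {x ∈ S | 2 * x = m} = {a} := by
      ext x
      rw [mem_filter, mem_singleton]
      constructor
      · rintro ⟨_, h2⟩; omega
      · rintro rfl; exact ⟨ha, by omega⟩
    rw [this]
    simp
  · have : {x ∈ S | 2 * x = m} = ∅ := by
      rw [Finset.filter_eq_empty_iff]
      intro x hx h2
      rcases key x hx x hx (by omega) with h4 | h4 <;> omega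
    rw [this, Finset.card_pair]
    · simp
    · intro h5
      rw [Prod.mk.injEq] at h5
      exact hab' h5.1

/-- counting function -/
def cn (S : Finset ℕ) (n : ℕ) : ℕ := #{a ∈ S | a ≤ n}

def sm (S : Finset ℕ) (n : ℕ) : ℕ := ∑ a ∈ S with a ≤ n, a

def Tr (S : Finset ℕ) (n : ℕ) : Finset (ℕ × ℕ × ℕ) := {t ∈ S ×ˢ S ×ˢ S | t.1 + t.2.1 + t.2.2 = n}

def sol (S : Finset ℕ) (n : ℕ) : Finset (ℕ × ℕ) := {p ∈ S ×ˢ S | p.1 + 2 * p.2 = n}

def ss (S : Finset ℕ) (n : ℕ) : ℕ := #(sol S n)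

lemma mem_Tr {S : Finset ℕ} {n : ℕ} {t : ℕ × ℕ × ℕ} :
    t ∈ Tr S n ↔ (t.1 ∈ S ∧ t.2.1 ∈ S ∧ t.2.2 ∈ S) ∧ t.1 + t.2.1 + t.2.2 = n := by
  unfold Tr
  rw [mem_filter, mem_product, mem_product]

lemma mem_sol {S : Finset ℕ} {n : ℕ} {p : ℕ × ℕ} :
    p ∈ sol S n ↔ (p.1 ∈ S ∧ p.2 ∈ S) ∧ p.1 + 2 * p.2 = n := by
  unfold sol
  rw [mem_filter, mem_product]

lemma sum_Tr (S : Finset ℕ) (n : ℕ) (g : ℕ → ℤ) :
    ∑ t ∈ Tr S n, g t.1 = ∑ a ∈ S with a ≤ n, g a * RR S (n - a) := by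
  rw [← Finset.sum_fiberwise_of_maps_to (s := Tr S n) (t := {a ∈ S | a ≤ n}) (g := fun t => t.1)]
  · apply Finset.sum_congr rfl
    intro a ha
    rw [mem_filter] at ha
    have : ∑ t ∈ Tr S n with t.1 = a, g t.1 = ∑ t ∈ Tr S n with t.1 = a, g a := by
      apply Finset.sum_congr rfl
      intro t ht
      rw [(mem_filter.mp ht).2]
    rw [this, Finset.sum_const, nsmul_eq_mul, mul_comm]
    congr 2
    unfold RR
    apply Finset.card_bij (fun t _ => t.2)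
    · intro t ht
      rw [mem_filter, mem_Tr] at ht
      rw [mem_filter, mem_product]
      exact ⟨⟨ht.1.1.2.1, ht.1.1.2.2⟩, by omega⟩
    · intro t ht t' ht' htt
      rw [mem_filter] at ht ht'
      exact Prod.ext (by rw [ht.2, ht'.2]) htt
    · intro p hp
      rw [mem_filter, mem_product] at hp
      refine ⟨(a, p), ?_, rfl⟩
      rw [mem_filter, mem_Tr]
      exact ⟨⟨⟨ha.1, hp.1.1, hp.1.2⟩, by show a + p.1 + p.2 = n; omega⟩, rfl⟩
  · intro t ht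
    rw [mem_Tr] at ht
    rw [mem_filter]
    exact ⟨ht.1.1, by omega⟩

lemma sum_sol (S : Finset ℕ) (n : ℕ) (g : ℕ → ℤ) :
    ∑ p ∈ sol S n, g p.1 = ∑ a ∈ S with a ≤ n, g a * dl S (n - a) := by
  rw [← Finset.sum_fiberwise_of_maps_to (s := sol S n) (t := {a ∈ S | a ≤ n}) (g := fun t => t.1)]
  · apply Finset.sum_congr rfl
    intro a ha
    rw [mem_filter] at ha
    have : ∑ t ∈ sol S n with t.1 = a, g t.1 = ∑ t ∈ sol S n with t.1 = a, g a := by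
      apply Finset.sum_congr rfl
      intro t ht
      rw [(mem_filter.mp ht).2]
    rw [this, Finset.sum_const, nsmul_eq_mul, mul_comm]
    congr 2
    unfold dl
    apply Finset.card_bij (fun t _ => t.2)
    · intro t ht
      rw [mem_filter, mem_sol] at ht
      rw [mem_filter]
      exact ⟨ht.1.1.2, by omega⟩
    · intro t ht t' ht' htt
      rw [mem_filter] at ht ht'
      exact Prod.ext (by rw [ht.2, ht'.2]) htt
    · intro p hp
      rw [mem_filter] at hp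
      refine ⟨(a, p), ?_, rfl⟩
      rw [mem_filter, mem_sol]
      exact ⟨⟨⟨ha.1, hp.1⟩, by show a + 2 * p = n; omega⟩, rfl⟩
  · intro t ht
    rw [mem_sol] at ht
    rw [mem_filter]
    exact ⟨ht.1.1, by omega⟩

lemma sum_Tr_rot (S : Finset ℕ) (n : ℕ) (g : ℕ × ℕ × ℕ → ℤ) :
    ∑ t ∈ Tr S n, g t = ∑ t ∈ Tr S n, g (t.2.1, t.2.2, t.1) := by
  refine Finset.sum_bij' (fun t _ => (t.2.2, t.1, t.2.1)) (fun t _ => (t.2.1, t.2.2, t.1)) ?_ ?_ ?_ ?_ ?_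
  · intro t ht
    rw [mem_Tr] at ht ⊢
    exact ⟨⟨ht.1.2.2, ht.1.1, ht.1.2.1⟩, by show t.2.2 + t.1 + t.2.1 = n; omega⟩
  · intro t ht
    rw [mem_Tr] at ht ⊢
    exact ⟨⟨ht.1.2.1, ht.1.2.2, ht.1.1⟩, by show t.2.1 + t.2.2 + t.1 = n; omega⟩
  · intro t _; rfl
  · intro t _; rfl
  · intro t _; rfl

lemma three_sum_Tr (S : Finset ℕ) (n : ℕ) :
    3 * ∑ t ∈ Tr S n, (t.1 : ℤ) = n * #(Tr S n) := by
  have h1 := sum_Tr_rot S n (fun t => (t.1 : ℤ))
  have h2 := sum_Tr_rot S n (fun t => (t.2.1 : ℤ))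
  simp only at h1 h2
  have h3 : ∑ t ∈ Tr S n, ((t.1 : ℤ) + t.2.1 + t.2.2) = ∑ t ∈ Tr S n, (n : ℤ) := by
    apply Finset.sum_congr rfl
    intro t ht
    rw [mem_Tr] at ht
    exact_mod_cast ht.2
  rw [Finset.sum_add_distrib, Finset.sum_add_distrib, Finset.sum_const, nsmul_eq_mul] at h3
  linarith

lemma three_dvd_card_Tr (S : Finset ℕ) (n : ℕ) (h3 : ∀ a ∈ S, 3 * a ≠ n) : 3 ∣ #(Tr S n) := by
  set T1 := {t ∈ Tr S n | t.1 ≤ t.2.1 ∧ t.1 < t.2.2} with hT1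
  have hc : (#(Tr S n) : ℤ) = 3 * #T1 := by
    have e0 : (#(Tr S n) : ℤ) = ∑ t ∈ Tr S n, ((if t.1 ≤ t.2.1 ∧ t.1 < t.2.2 then (1 : ℤ) else 0) +
        (if t.2.1 ≤ t.2.2 ∧ t.2.1 < t.1 then (1 : ℤ) else 0) +
        (if t.2.2 ≤ t.1 ∧ t.2.2 < t.2.1 then (1 : ℤ) else 0)) := by
      rw [Finset.card_eq_sum_ones]
      push_cast
      apply Finset.sum_congr rfl
      intro t ht
      rw [mem_Tr] at ht
      have hne : ¬ (t.1 = t.2.1 ∧ t.1 = t.2.2) := by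
        rintro ⟨h1, h2⟩
        exact h3 t.1 ht.1.1 (by omega)
      split_ifs <;> first | rfl | (exfalso; omega)
    have e1 := sum_Tr_rot S n (fun t => if t.1 ≤ t.2.1 ∧ t.1 < t.2.2 then (1 : ℤ) else 0)
    have e2 := sum_Tr_rot S n (fun t => if t.2.1 ≤ t.2.2 ∧ t.2.1 < t.1 then (1 : ℤ) else 0)
    simp only at e1 e2
    rw [e0, Finset.sum_add_distrib, Finset.sum_add_distrib, ← e2, ← e1]
    have e3 : (#T1 : ℤ) = ∑ t ∈ Tr S n, (if t.1 ≤ t.2.1 ∧ t.1 < t.2.2 then (1 : ℤ) else 0) := by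
      rw [hT1, Finset.card_filter]
      push_cast
      rfl
    rw [e3]
    ring
  have : #(Tr S n) = 3 * #T1 := by exact_mod_cast hc
  exact ⟨_, this⟩

/-- the structural facts for a good `n` -/
lemma structure_facts {S E : Finset ℕ} {L : ℕ} (h : Sys S E L) {n : ℕ} (hn : n ≤ L)
    (hg : ∀ a ∈ S, a ≤ n → n - a ∉ E) (h3 : ∀ a ∈ S, 3 * a ≠ n) :
    (cn S n) % 3 = (2 * ss S n) % 3 ∧
    (cn S n : ℤ) * n - 3 * sm S n = ∑ p ∈ sol S n, ((p.2 : ℤ) - p.1) := by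
  have hRR : ∀ a ∈ ({a ∈ S | a ≤ n} : Finset ℕ), (RR S (n - a) : ℤ) = 2 - dl S (n - a) := by
    intro a ha
    rw [mem_filter] at ha
    have := RR_add_dl h (hg a ha.1 ha.2) (by omega)
    omega
  have hsum : ∀ g : ℕ → ℤ, ∑ t ∈ Tr S n, g t.1 + ∑ p ∈ sol S n, g p.1 = 2 * ∑ a ∈ S with a ≤ n, g a := by
    intro g
    rw [sum_Tr, sum_sol, ← Finset.sum_add_distrib, Finset.mul_sum]
    apply Finset.sum_congr rfl
    intro a ha
    rw [hRR a ha]
    ring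
  have h1 := hsum (fun _ => 1)
  have h2 := hsum (fun a => (a : ℤ))
  simp only [Finset.sum_const, nsmul_eq_mul, mul_one] at h1
  have hcn : (#{a ∈ S | a ≤ n} : ℤ) = cn S n := rfl
  have hss : (#(sol S n) : ℤ) = ss S n := rfl
  have hsm : ∑ a ∈ S with a ≤ n, (a : ℤ) = sm S n := by
    unfold sm
    push_cast
    rfl
  rw [hcn, hss] at h1
  rw [hsm] at h2
  have h4 := three_sum_Tr S n
  obtain ⟨k, hk⟩ := three_dvd_card_Tr S n h3
  constructor
  · rw [hk] at h1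
    push_cast at h1
    omega
  · have h5 : ∑ p ∈ sol S n, (2 * ((p.2 : ℤ) - p.1)) = ∑ p ∈ sol S n, ((n : ℤ) - 3 * p.1) := by
      apply Finset.sum_congr rfl
      intro p hp
      rw [mem_sol] at hp
      have : (p.1 : ℤ) + 2 * p.2 = n := by exact_mod_cast hp.2
      linarith
    have h7 : ∑ p ∈ sol S n, ((n : ℤ) - 3 * p.1) = ss S n * n - 3 * ∑ p ∈ sol S n, (p.1 : ℤ) := by
      rw [Finset.sum_sub_distrib, Finset.sum_const, nsmul_eq_mul, ← Finset.mul_sum, hss]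
    rw [← Finset.mul_sum, h7] at h5
    have h6 : (n : ℤ) * (#(Tr S n) : ℤ) = n * (2 * cn S n - ss S n) := by
      rw [← h1]; ring
    nlinarith

lemma phi_bounds {S E : Finset ℕ} {L : ℕ} (h : Sys S E L) {n : ℕ} (hn : n ≤ L)
    (hg : ∀ a ∈ S, a ≤ n → n - a ∉ E) (h3 : ∀ a ∈ S, 3 * a ≠ n) :
    -((ss S n : ℤ) * n) ≤ (cn S n : ℤ) * n - 3 * sm S n ∧
    2 * ((cn S n : ℤ) * n - 3 * sm S n) ≤ (ss S n : ℤ) * n := by
  rw [(structure_facts h hn hg h3).2]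
  constructor
  · have : ∑ p ∈ sol S n, (-(n : ℤ)) ≤ ∑ p ∈ sol S n, ((p.2 : ℤ) - p.1) := by
      apply Finset.sum_le_sum
      intro p hp
      rw [mem_sol] at hp
      omega
    rw [Finset.sum_const, nsmul_eq_mul] at this
    unfold ss
    linarith
  · have : ∑ p ∈ sol S n, (2 * ((p.2 : ℤ) - p.1)) ≤ ∑ p ∈ sol S n, (n : ℤ) := by
      apply Finset.sum_le_sum
      intro p hp
      rw [mem_sol] at hp
      omega
    rw [Finset.sum_const, nsmul_eq_mul, ← Finset.mul_sum] at this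
    exact this

end Pool.Agent.Helper995.U1
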