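import Mathlib
import Pool.Agent.Helper995.U1

set_option autoImplicit false

namespace Pool.Agent.Helper995.U2
open Finset Pool.Agent.Helper995.U1

variable {S E : Finset ℕ} {L : ℕ}

lemma fiber {α : Type*} [DecidableEq α] (s : Finset α) (φ : α → ℕ) (M : Finset ℕ) (g : ℕ → ℝ) :
    ∑ x ∈ s with φ x ∈ M, g (φ x) = ∑ m ∈ M, g m * #{x ∈ s | φ x = m} := by
  rw [← Finset.sum_fiberwise_of_maps_to (s := {x ∈ s | φ x ∈ M}) (t := M) (g := φ)]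
  · apply Finset.sum_congr rfl
    intro m hm
    have h1 : {x ∈ {x ∈ s | φ x ∈ M} | φ x = m} = {x ∈ s | φ x = m} := by
      ext x
      rw [mem_filter, mem_filter, mem_filter]
      constructor
      · rintro ⟨⟨a, _⟩, b⟩; exact ⟨a, b⟩
      · rintro ⟨a, b⟩; exact ⟨⟨a, by rw [b]; exact hm⟩, b⟩
    rw [h1]
    have h2 : ∑ x ∈ s with φ x = m, g (φ x) = ∑ x ∈ s with φ x = m, g m := by
      apply Finset.sum_congr rfl
      intro x hx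
      rw [(mem_filter.mp hx).2]
    rw [h2, Finset.sum_const, nsmul_eq_mul, mul_comm]
  · intro x hx
    exact (mem_filter.mp hx).2

lemma fiber_RR (S M : Finset ℕ) (g : ℕ → ℝ) :
    ∑ p ∈ S ×ˢ S with p.1 + p.2 ∈ M, g (p.1 + p.2) = ∑ m ∈ M, g m * RR S m :=
  fiber (S ×ˢ S) (fun p => p.1 + p.2) M g

lemma fiber_dl (S M : Finset ℕ) (g : ℕ → ℝ) :
    ∑ b ∈ S with 2 * b ∈ M, g (2 * b) = ∑ m ∈ M, g m * dl S m :=
  fiber S (fun b => 2 * b) M g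

lemma fiber_ss (S M : Finset ℕ) (g : ℕ → ℝ) :
    ∑ p ∈ S ×ˢ S with p.1 + 2 * p.2 ∈ M, g (p.1 + 2 * p.2) = ∑ m ∈ M, g m * ss S m :=
  fiber (S ×ˢ S) (fun p => p.1 + 2 * p.2) M g

/-- lower bound for the counting function -/
lemma cn_lower (h : Sys S E L) {n : ℕ} (hn : n ≤ L) :
    2 * ((n : ℝ) + 1) ≤ (cn S n : ℝ) ^ 2 + cn S n + 2 * #E := by
  have h1 := fiber_RR S (range (n + 1) \ E) (fun _ => 1)
  have h2 := fiber_dl S (range (n + 1) \ E) (fun _ => 1)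
  simp only [one_mul, Finset.sum_const, nsmul_eq_mul, mul_one] at h1 h2
  have h3 : ∑ m ∈ range (n + 1) \ E, ((RR S m : ℝ) + dl S m) = ∑ m ∈ range (n + 1) \ E, (2 : ℝ) := by
    apply Finset.sum_congr rfl
    intro m hm
    rw [mem_sdiff, mem_range] at hm
    exact_mod_cast RR_add_dl h hm.2 (by omega)
  rw [Finset.sum_add_distrib, Finset.sum_const, nsmul_eq_mul, ← h1, ← h2] at h3
  have h4 : (n + 1 : ℝ) - #E ≤ #(range (n + 1) \ E) := by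
    have := Finset.le_card_sdiff E (range (n + 1))
    rw [card_range] at this
    have h5 : n + 1 ≤ #(range (n + 1) \ E) + #E := by omega
    have h6 : ((n + 1 : ℕ) : ℝ) ≤ ((#(range (n + 1) \ E) + #E : ℕ) : ℝ) := by exact_mod_cast h5
    push_cast at h6
    linarith
  have h5 : (#{p ∈ S ×ˢ S | p.1 + p.2 ∈ range (n + 1) \ E} : ℝ) ≤ (cn S n : ℝ) ^ 2 := by
    have : #{p ∈ S ×ˢ S | p.1 + p.2 ∈ range (n + 1) \ E} ≤ #(({a ∈ S | a ≤ n}) ×ˢ ({a ∈ S | a ≤ n})) := by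
      apply Finset.card_le_card
      intro p hp
      rw [mem_filter, mem_product, mem_sdiff, mem_range] at hp
      rw [mem_product, mem_filter, mem_filter]
      exact ⟨⟨hp.1.1, by omega⟩, ⟨hp.1.2, by omega⟩⟩
    rw [Finset.card_product, ← sq] at this
    exact_mod_cast this
  have h6 : (#{b ∈ S | 2 * b ∈ range (n + 1) \ E} : ℝ) ≤ (cn S n : ℝ) := by
    have : #{b ∈ S | 2 * b ∈ range (n + 1) \ E} ≤ #({a ∈ S | a ≤ n}) := by
      apply Finset.card_le_card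
      intro b hb
      rw [mem_filter, mem_sdiff, mem_range] at hb
      rw [mem_filter]
      exact ⟨hb.1, by omega⟩
    exact_mod_cast this
  linarith

/-- weighted sums -/
noncomputable def FF (ρ : ℝ) (S : Finset ℕ) : ℝ := ∑ a ∈ S, ρ ^ a
noncomputable def F2 (ρ : ℝ) (S : Finset ℕ) : ℝ := ∑ a ∈ S, ρ ^ (2 * a)
noncomputable def GG (ρ : ℝ) (S : Finset ℕ) : ℝ := ∑ a ∈ S, (a : ℝ) * ρ ^ a

lemma E_part (S E : Finset ℕ) (g : ℕ → ℝ) (hg : ∀ x, 0 ≤ g x) :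
    ∑ p ∈ S ×ˢ S with p.1 + p.2 ∈ E, g p.1 ≤ #E * ∑ a ∈ S, g a := by
  rw [Finset.sum_filter, Finset.sum_product, Finset.mul_sum]
  apply Finset.sum_le_sum
  intro a _
  simp only
  rw [← Finset.sum_filter, Finset.sum_const, nsmul_eq_mul]
  apply mul_le_mul_of_nonneg_right _ (hg a)
  have : #{b ∈ S | a + b ∈ E} ≤ #E := by
    apply Finset.card_le_card_of_injOn (fun b => a + b)
    · intro b hb
      rw [mem_coe, mem_filter] at hb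
      exact hb.2
    · intro b _ b' _ hbb
      simp only at hbb
      omega
  exact_mod_cast this

lemma E_part' (S E : Finset ℕ) (g : ℕ → ℝ) (hg : ∀ x, 0 ≤ g x) :
    ∑ p ∈ S ×ˢ S with p.1 + p.2 ∈ E, g p.2 ≤ #E * ∑ a ∈ S, g a := by
  rw [Finset.sum_filter, Finset.sum_product_right, Finset.mul_sum]
  apply Finset.sum_le_sum
  intro a _
  simp only
  rw [← Finset.sum_filter, Finset.sum_const, nsmul_eq_mul]
  apply mul_le_mul_of_nonneg_right _ (hg a)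
  have : #{b ∈ S | b + a ∈ E} ≤ #E := by
    apply Finset.card_le_card_of_injOn (fun b => b + a)
    · intro b hb
      rw [mem_coe, mem_filter] at hb
      exact hb.2
    · intro b _ b' _ hbb
      simp only at hbb
      omega
  exact_mod_cast this

/-- part of the pair sum off `E` -/
lemma offE (h : Sys S E L) (g : ℕ → ℝ) (hg : ∀ x, 0 ≤ g x) :
    ∑ p ∈ S ×ˢ S with ¬ p.1 + p.2 ∈ E, g (p.1 + p.2) ≤ 2 * ∑ m ∈ range (2 * L + 1), g m := by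
  have h1 : {p ∈ S ×ˢ S | ¬ p.1 + p.2 ∈ E} = {p ∈ S ×ˢ S | p.1 + p.2 ∈ range (2 * L + 1) \ E} := by
    ext p
    rw [mem_filter, mem_filter, mem_product, mem_sdiff, mem_range]
    constructor
    · rintro ⟨⟨a, b⟩, c⟩
      have := h.le _ a
      have := h.le _ b
      exact ⟨⟨a, b⟩, by omega, c⟩
    · rintro ⟨a, _, c⟩
      exact ⟨a, c⟩
  rw [h1, fiber_RR, Finset.mul_sum]
  calc ∑ m ∈ range (2 * L + 1) \ E, g m * (RR S m : ℝ) ≤ ∑ m ∈ range (2 * L + 1) \ E, 2 * g m := by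
        apply Finset.sum_le_sum
        intro m hm
        rw [mem_sdiff] at hm
        have : (RR S m : ℝ) ≤ 2 := by exact_mod_cast RR_le_two h hm.2
        nlinarith [hg m]
    _ ≤ ∑ m ∈ range (2 * L + 1), 2 * g m := by
        apply Finset.sum_le_sum_of_subset_of_nonneg Finset.sdiff_subset
        intro m _ _
        have := hg m
        linarith

lemma geo_le {ρ T : ℝ} (h0 : 0 ≤ ρ) (hT : (1 - ρ) * T = 1) (hTp : 0 < T) (N : ℕ) :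
    ∑ m ∈ range N, ρ ^ m ≤ T := by
  have h := mul_neg_geom_sum ρ N
  have h1 : ∑ m ∈ range N, ρ ^ m = T * (1 - ρ ^ N) := by
    rw [← h]
    calc ∑ m ∈ range N, ρ ^ m = ((1 - ρ) * T) * ∑ m ∈ range N, ρ ^ m := by rw [hT, one_mul]
      _ = T * ((1 - ρ) * ∑ m ∈ range N, ρ ^ m) := by ring
  rw [h1]
  have : 0 ≤ ρ ^ N := pow_nonneg h0 _
  nlinarith

lemma geo_eq {ρ T : ℝ} (hT : (1 - ρ) * T = 1) (N : ℕ) :
    ∑ m ∈ range N, ρ ^ m = T * (1 - ρ ^ N) := by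
  have h := mul_neg_geom_sum ρ N
  rw [← h]
  calc ∑ m ∈ range N, ρ ^ m = ((1 - ρ) * T) * ∑ m ∈ range N, ρ ^ m := by rw [hT, one_mul]
    _ = T * ((1 - ρ) * ∑ m ∈ range N, ρ ^ m) := by ring

lemma geo1_le {ρ T : ℝ} (h0 : 0 ≤ ρ) (h1 : ρ ≤ 1) (hT : (1 - ρ) * T = 1) (hTp : 0 < T) (N : ℕ) :
    ∑ m ∈ range N, (m : ℝ) * ρ ^ m ≤ T ^ 2 := by
  set τ := 1 - ρ with hτ
  have hρ : ρ = 1 - τ := by rw [hτ]; ring
  have hτ0 : 0 ≤ τ := by rw [hτ]; linarith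
  have key : ∀ N : ℕ, τ ^ 2 * ∑ m ∈ range N, (m : ℝ) * ρ ^ m ≤ 1 - ρ ^ N * (1 + N * τ) := by
    intro N
    induction N with
    | zero => simp
    | succ N ih =>
      rw [Finset.sum_range_succ, mul_add, pow_succ ρ N]
      push_cast
      have hp : 0 ≤ ρ ^ N := pow_nonneg h0 _
      have : ρ ^ N * (1 + N * τ) - ρ ^ N * ρ * (1 + (N + 1) * τ) = ρ ^ N * ((N + 1) * τ ^ 2) := by
        rw [hρ]; ring
      have h2 : τ ^ 2 * (N * ρ ^ N) ≤ ρ ^ N * ((N + 1) * τ ^ 2) := by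
        have : ρ ^ N * ((N + 1) * τ ^ 2) - τ ^ 2 * (N * ρ ^ N) = ρ ^ N * τ ^ 2 := by ring
        have h3 : 0 ≤ ρ ^ N * τ ^ 2 := by positivity
        linarith
      linarith
  have h2 := key N
  have h3 : 0 ≤ ρ ^ N * (1 + N * τ) := by positivity
  have h4 : τ ^ 2 * ∑ m ∈ range N, (m : ℝ) * ρ ^ m ≤ 1 := by linarith
  calc ∑ m ∈ range N, (m : ℝ) * ρ ^ m = T ^ 2 * (τ ^ 2 * ∑ m ∈ range N, (m : ℝ) * ρ ^ m) := by
        have : T ^ 2 * τ ^ 2 = 1 := by rw [← mul_pow, mul_comm T τ, hT, one_pow]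
        rw [← mul_assoc, this, one_mul]
    _ ≤ T ^ 2 * 1 := by apply mul_le_mul_of_nonneg_left h4 (by positivity)
    _ = T ^ 2 := by ring

lemma FF_nonneg {ρ : ℝ} (h0 : 0 ≤ ρ) (S : Finset ℕ) : 0 ≤ FF ρ S :=
  Finset.sum_nonneg fun _ _ => pow_nonneg h0 _

lemma F2_nonneg {ρ : ℝ} (h0 : 0 ≤ ρ) (S : Finset ℕ) : 0 ≤ F2 ρ S :=
  Finset.sum_nonneg fun _ _ => pow_nonneg h0 _

lemma GG_nonneg {ρ : ℝ} (h0 : 0 ≤ ρ) (S : Finset ℕ) : 0 ≤ GG ρ S :=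
  Finset.sum_nonneg fun _ _ => mul_nonneg (Nat.cast_nonneg _) (pow_nonneg h0 _)

lemma F2_le_FF {ρ : ℝ} (h0 : 0 ≤ ρ) (h1 : ρ ≤ 1) (S : Finset ℕ) : F2 ρ S ≤ FF ρ S :=
  Finset.sum_le_sum fun _ _ => pow_le_pow_of_le_one h0 h1 (by omega)

lemma FF_sq_le {ρ T : ℝ} (h : Sys S E L) (h0 : 0 ≤ ρ) (h1 : ρ ≤ 1) (hT : (1 - ρ) * T = 1) (hTp : 0 < T) :
    FF ρ S ^ 2 ≤ 2 * T + #E * FF ρ S := by
  have e1 : FF ρ S ^ 2 = ∑ p ∈ S ×ˢ S, ρ ^ (p.1 + p.2) := by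
    unfold FF
    rw [sq, Finset.sum_mul_sum, ← Finset.sum_product']
    apply Finset.sum_congr rfl
    intro p _
    rw [pow_add]
  rw [e1, ← Finset.sum_filter_add_sum_filter_not (S ×ˢ S) (fun p => p.1 + p.2 ∈ E)]
  have h2 := offE h (fun m => ρ ^ m) (fun _ => pow_nonneg h0 _)
  have h3 := geo_le h0 hT hTp (2 * L + 1)
  have h4 := E_part S E (fun a => ρ ^ a) (fun _ => pow_nonneg h0 _)
  have h5 : ∑ p ∈ S ×ˢ S with p.1 + p.2 ∈ E, ρ ^ (p.1 + p.2) ≤ ∑ p ∈ S ×ˢ S with p.1 + p.2 ∈ E, ρ ^ p.1 := by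
    apply Finset.sum_le_sum
    intro p _
    exact pow_le_pow_of_le_one h0 h1 (by omega)
  unfold FF
  linarith

lemma F2_sq_le {ρ T : ℝ} (h : Sys S E L) (h0 : 0 ≤ ρ) (h1 : ρ ≤ 1) (hT : (1 - ρ ^ 2) * T = 1) (hTp : 0 < T) :
    F2 ρ S ^ 2 ≤ 2 * T + #E * F2 ρ S := by
  have e : F2 ρ S = FF (ρ ^ 2) S := by
    unfold F2 FF
    apply Finset.sum_congr rfl
    intro a _
    rw [pow_mul]
  rw [e]
  exact FF_sq_le h (by positivity) (pow_le_one₀ h0 h1) hT hTp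

lemma GG_FF_le {ρ T : ℝ} (h : Sys S E L) (h0 : 0 ≤ ρ) (h1 : ρ ≤ 1) (hT : (1 - ρ) * T = 1) (hTp : 0 < T) :
    GG ρ S * FF ρ S ≤ T ^ 2 + #E * GG ρ S := by
  have e1 : 2 * (GG ρ S * FF ρ S) = ∑ p ∈ S ×ˢ S, ((p.1 + p.2 : ℕ) : ℝ) * ρ ^ (p.1 + p.2) := by
    have a1 : GG ρ S * FF ρ S = ∑ p ∈ S ×ˢ S, (p.1 : ℝ) * ρ ^ (p.1 + p.2) := by
      unfold GG FF
      rw [Finset.sum_mul_sum, ← Finset.sum_product']
      apply Finset.sum_congr rfl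
      intro p _
      rw [pow_add]; ring
    have a2 : FF ρ S * GG ρ S = ∑ p ∈ S ×ˢ S, (p.2 : ℝ) * ρ ^ (p.1 + p.2) := by
      unfold GG FF
      rw [Finset.sum_mul_sum, ← Finset.sum_product']
      apply Finset.sum_congr rfl
      intro p _
      rw [pow_add]; ring
    have a3 : ∑ p ∈ S ×ˢ S, ((p.1 + p.2 : ℕ) : ℝ) * ρ ^ (p.1 + p.2) =
        ∑ p ∈ S ×ˢ S, (p.1 : ℝ) * ρ ^ (p.1 + p.2) + ∑ p ∈ S ×ˢ S, (p.2 : ℝ) * ρ ^ (p.1 + p.2) := by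
      rw [← Finset.sum_add_distrib]
      apply Finset.sum_congr rfl
      intro p _
      push_cast; ring
    rw [a3, ← a1, ← a2]; ring
  rw [← Finset.sum_filter_add_sum_filter_not (S ×ˢ S) (fun p => p.1 + p.2 ∈ E)] at e1
  have h2 := offE h (fun m => (m : ℝ) * ρ ^ m) (fun _ => mul_nonneg (Nat.cast_nonneg _) (pow_nonneg h0 _))
  have h3 := geo1_le h0 h1 hT hTp (2 * L + 1)
  have h4 := E_part S E (fun a => (a : ℝ) * ρ ^ a) (fun _ => mul_nonneg (Nat.cast_nonneg _) (pow_nonneg h0 _))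
  have h4' := E_part' S E (fun a => (a : ℝ) * ρ ^ a) (fun _ => mul_nonneg (Nat.cast_nonneg _) (pow_nonneg h0 _))
  have h5 : ∑ p ∈ S ×ˢ S with p.1 + p.2 ∈ E, ((p.1 + p.2 : ℕ) : ℝ) * ρ ^ (p.1 + p.2) ≤
      ∑ p ∈ S ×ˢ S with p.1 + p.2 ∈ E, (p.1 : ℝ) * ρ ^ p.1 + ∑ p ∈ S ×ˢ S with p.1 + p.2 ∈ E, (p.2 : ℝ) * ρ ^ p.2 := by
    rw [← Finset.sum_add_distrib]
    apply Finset.sum_le_sum
    intro p _
    have b1 : ρ ^ (p.1 + p.2) ≤ ρ ^ p.1 := pow_le_pow_of_le_one h0 h1 (by omega)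
    have b2 : ρ ^ (p.1 + p.2) ≤ ρ ^ p.2 := pow_le_pow_of_le_one h0 h1 (by omega)
    push_cast
    have c1 : (p.1 : ℝ) * ρ ^ (p.1 + p.2) ≤ p.1 * ρ ^ p.1 := mul_le_mul_of_nonneg_left b1 (Nat.cast_nonneg _)
    have c2 : (p.2 : ℝ) * ρ ^ (p.1 + p.2) ≤ p.2 * ρ ^ p.2 := mul_le_mul_of_nonneg_left b2 (Nat.cast_nonneg _)
    linarith
  have h6 : GG ρ S = ∑ a ∈ S, (a : ℝ) * ρ ^ a := rfl
  rw [← h6] at h4 h4'
  linarith

lemma FF_sq_ge {ρ T : ℝ} (h : Sys S E L) (h0 : 0 ≤ ρ) (h1 : ρ ≤ 1) (hT : (1 - ρ) * T = 1) :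
    2 * T * (1 - ρ ^ (L + 1)) - 2 * #E - F2 ρ S ≤ FF ρ S ^ 2 := by
  have e1 : FF ρ S ^ 2 = ∑ p ∈ S ×ˢ S, ρ ^ (p.1 + p.2) := by
    unfold FF
    rw [sq, Finset.sum_mul_sum, ← Finset.sum_product']
    apply Finset.sum_congr rfl
    intro p _
    rw [pow_add]
  have h2 := fiber_RR S (range (L + 1) \ E) (fun m => ρ ^ m)
  have h3 := fiber_dl S (range (L + 1) \ E) (fun m => ρ ^ m)
  have h4 : ∑ m ∈ range (L + 1) \ E, (ρ ^ m * (RR S m : ℝ) + ρ ^ m * dl S m) =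
      ∑ m ∈ range (L + 1) \ E, 2 * ρ ^ m := by
    apply Finset.sum_congr rfl
    intro m hm
    rw [mem_sdiff, mem_range] at hm
    have : (RR S m : ℝ) + dl S m = 2 := by exact_mod_cast RR_add_dl h hm.2 (by omega)
    rw [← mul_add, this]; ring
  rw [Finset.sum_add_distrib, ← h2, ← h3, ← Finset.mul_sum] at h4
  have h5 : ∑ p ∈ S ×ˢ S with p.1 + p.2 ∈ range (L + 1) \ E, ρ ^ (p.1 + p.2) ≤ FF ρ S ^ 2 := by
    rw [e1]
    apply Finset.sum_le_sum_of_subset_of_nonneg (Finset.filter_subset _ _)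
    intro _ _ _
    exact pow_nonneg h0 _
  have h6 : ∑ b ∈ S with 2 * b ∈ range (L + 1) \ E, ρ ^ (2 * b) ≤ F2 ρ S := by
    unfold F2
    apply Finset.sum_le_sum_of_subset_of_nonneg (Finset.filter_subset _ _)
    intro _ _ _
    exact pow_nonneg h0 _
  have h7 : T * (1 - ρ ^ (L + 1)) - #E ≤ ∑ m ∈ range (L + 1) \ E, ρ ^ m := by
    rw [← geo_eq hT (L + 1)]
    have a1 : ∑ m ∈ range (L + 1), ρ ^ m ≤ ∑ m ∈ (range (L + 1) \ E) ∪ E, ρ ^ m := by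
      apply Finset.sum_le_sum_of_subset_of_nonneg
      · intro m hm
        rw [mem_union, mem_sdiff]
        by_cases hE : m ∈ E
        · right; exact hE
        · left; exact ⟨hm, hE⟩
      · intro _ _ _
        exact pow_nonneg h0 _
    rw [Finset.sum_union Finset.sdiff_disjoint] at a1
    have a2 : ∑ m ∈ E, ρ ^ m ≤ #E := by
      calc ∑ m ∈ E, ρ ^ m ≤ ∑ m ∈ E, (1 : ℝ) := Finset.sum_le_sum fun m _ => pow_le_one₀ h0 h1
        _ = #E := by simp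
    linarith
  linarith

end Pool.Agent.Helper995.U2
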