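import Mathlib
import Pool.Agent.Helper995.U1
import Pool.Agent.Helper995.U2

set_option autoImplicit false

namespace Pool.Agent.Helper995.U3
open Finset Pool.Agent.Helper995.U1 Pool.Agent.Helper995.U2

variable {S E : Finset ℕ} {L : ℕ}

lemma cn_mono (S : Finset ℕ) {m n : ℕ} (h : m ≤ n) : cn S m ≤ cn S n := by
  unfold cn
  apply Finset.card_le_card
  intro a ha
  rw [mem_filter] at ha ⊢
  exact ⟨ha.1, by omega⟩

lemma cn_lt {S : Finset ℕ} {a a' : ℕ} (ha' : a' ∈ S) (h : a < a') : cn S a < cn S a' := by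
  unfold cn
  apply Finset.card_lt_card
  rw [Finset.ssubset_iff_of_subset]
  · refine ⟨a', ?_, ?_⟩
    · rw [mem_filter]; exact ⟨ha', le_rfl⟩
    · rw [mem_filter]; omega
  · intro x hx
    rw [mem_filter] at hx ⊢
    exact ⟨hx.1, by omega⟩

lemma filter_eq {S : Finset ℕ} {a n : ℕ} (h : a ≤ n) (hc : cn S n = cn S a) :
    ({x ∈ S | x ≤ n} : Finset ℕ) = {x ∈ S | x ≤ a} := by
  symm
  apply Finset.eq_of_subset_of_card_le
  · intro x hx
    rw [mem_filter] at hx ⊢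
    exact ⟨hx.1, by omega⟩
  · unfold cn at hc
    rw [hc]

lemma sm_eq {S : Finset ℕ} {a n : ℕ} (h : a ≤ n) (hc : cn S n = cn S a) : sm S n = sm S a := by
  unfold sm
  rw [filter_eq h hc]

lemma exists_pred {S : Finset ℕ} {n : ℕ} (h : 1 ≤ cn S n) : ∃ a ∈ S, a ≤ n ∧ cn S n = cn S a := by
  have hne : ({x ∈ S | x ≤ n} : Finset ℕ).Nonempty := by
    rw [← Finset.card_pos]
    exact h
  have hm := Finset.max'_mem _ hne
  set a := Finset.max' _ hne with ha
  rw [mem_filter] at hm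
  refine ⟨a, hm.1, hm.2, ?_⟩
  unfold cn
  congr 1
  ext x
  rw [mem_filter, mem_filter]
  constructor
  · rintro ⟨h1, h2⟩
    exact ⟨h1, Finset.le_max' _ _ (by rw [mem_filter]; exact ⟨h1, h2⟩)⟩
  · rintro ⟨h1, h2⟩
    exact ⟨h1, by omega⟩

/-- the gap of `a` -/
def gp (S : Finset ℕ) (L a : ℕ) : Finset ℕ := {m ∈ range (L + 1) | a ≤ m ∧ cn S m = cn S a}

lemma gp_card (S : Finset ℕ) (m : ℕ) : #{a ∈ S | a ≤ m ∧ cn S m = cn S a} ≤ 1 := by
  rw [Finset.card_le_one]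
  intro a ha b hb
  rw [mem_filter] at ha hb
  by_contra hne
  rcases Nat.lt_or_gt_of_ne hne with h | h
  · have := cn_lt hb.1 h
    omega
  · have := cn_lt ha.1 h
    omega

lemma gp_sum (S : Finset ℕ) (L : ℕ) (g : ℕ → ℝ) (hg : ∀ x, 0 ≤ g x) :
    ∑ a ∈ S, ∑ m ∈ gp S L a, g m ≤ ∑ m ∈ range (L + 1), g m := by
  have : ∑ a ∈ S, ∑ m ∈ gp S L a, g m = ∑ m ∈ range (L + 1), ∑ a ∈ S with a ≤ m ∧ cn S m = cn S a, g m := by
    unfold gp
    simp only [Finset.sum_filter]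
    rw [Finset.sum_comm]
  rw [this]
  apply Finset.sum_le_sum
  intro m _
  rw [Finset.sum_const, nsmul_eq_mul]
  have h1 : ((#{a ∈ S | a ≤ m ∧ cn S m = cn S a} : ℕ) : ℝ) ≤ 1 := by exact_mod_cast gp_card S m
  nlinarith [hg m]

noncomputable def ff (lam ρ : ℝ) (x : ℕ) : ℝ := (lam + x / lam) * ρ ^ x

lemma ff_nonneg {lam ρ : ℝ} (hl : 0 < lam) (h0 : 0 ≤ ρ) (x : ℕ) : 0 ≤ ff lam ρ x := by
  unfold ff
  positivity

lemma ff_succ_le {lam ρ : ℝ} (hl : 0 < lam) (h0 : 0 ≤ ρ) (h1 : ρ ≤ 1) (x : ℕ) :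
    ff lam ρ (x + 1) ≤ ff lam ρ x + (1 / lam) * ρ ^ x := by
  unfold ff
  have : ρ ^ (x + 1) ≤ ρ ^ x := pow_le_pow_of_le_one h0 h1 (by omega)
  calc (lam + ((x + 1 : ℕ) : ℝ) / lam) * ρ ^ (x + 1) ≤ (lam + ((x + 1 : ℕ) : ℝ) / lam) * ρ ^ x := by
        apply mul_le_mul_of_nonneg_left this
        positivity
    _ = (lam + x / lam) * ρ ^ x + (1 / lam) * ρ ^ x := by
        push_cast
        ring

lemma ff_succ_ge {lam ρ : ℝ} (hl : 0 < lam) (h0 : 0 ≤ ρ) (x : ℕ) :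
    ff lam ρ x - (1 - ρ) * ff lam ρ x ≤ ff lam ρ (x + 1) := by
  unfold ff
  have hp : 0 ≤ ρ ^ x := pow_nonneg h0 _
  calc (lam + x / lam) * ρ ^ x - (1 - ρ) * ((lam + x / lam) * ρ ^ x) = (lam + x / lam) * ρ ^ (x + 1) := by ring
    _ ≤ (lam + ((x + 1 : ℕ) : ℝ) / lam) * ρ ^ (x + 1) := by
        apply mul_le_mul_of_nonneg_right _ (pow_nonneg h0 _)
        push_cast
        have : (x : ℝ) / lam ≤ (x + 1) / lam := by
          apply div_le_div_of_nonneg_right _ hl.le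
          linarith
        linarith

lemma ff_le_of_le {lam ρ : ℝ} (hl : 0 < lam) (h0 : 0 ≤ ρ) (h1 : ρ ≤ 1) {a n : ℕ} (h : a ≤ n) :
    ff lam ρ n ≤ ff lam ρ a + (1 / lam) * ∑ m ∈ Ico a n, ρ ^ m := by
  induction n, h using Nat.le_induction with
  | base => simp
  | succ n hn ih =>
    rw [Finset.sum_Ico_succ_top hn, mul_add]
    have := ff_succ_le hl h0 h1 n
    linarith

/-- equidistribution modulo three -/
noncomputable def wt (j : ℕ) : ℝ := if j % 3 = 0 then -(2 / 3) else 1 / 3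
noncomputable def VV (j : ℕ) : ℝ := if j % 3 = 0 then 0 else if j % 3 = 1 then 1 / 3 else 2 / 3

lemma VV_succ (j : ℕ) : VV (j + 1) = VV j + wt (j + 1) := by
  unfold VV wt
  have h := Nat.mod_lt j (by norm_num : 3 > 0)
  rcases Nat.lt_or_ge (j % 3) 1 with h1 | h1
  · have e0 : j % 3 = 0 := by omega
    have e1 : (j + 1) % 3 = 1 := by omega
    simp only [e0, e1]; norm_num
  · rcases Nat.lt_or_ge (j % 3) 2 with h2 | h2
    · have e0 : j % 3 = 1 := by omega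
      have e1 : (j + 1) % 3 = 2 := by omega
      simp only [e0, e1]; norm_num
    · have e0 : j % 3 = 2 := by omega
      have e1 : (j + 1) % 3 = 0 := by omega
      simp only [e0, e1]; norm_num

lemma VV_nonneg (j : ℕ) : 0 ≤ VV j := by
  unfold VV; split_ifs <;> norm_num

lemma VV_le_one (j : ℕ) : VV j ≤ 1 := by
  unfold VV; split_ifs <;> norm_num

lemma equi_aux {lam ρ : ℝ} (hl : 0 < lam) (h0 : 0 ≤ ρ) (h1 : ρ ≤ 1) (S : Finset ℕ) (n : ℕ) :
    ∑ a ∈ S with a ≤ n, wt (cn S a) * ff lam ρ a ≤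
      VV (cn S n) * ff lam ρ n + (1 - ρ) * ∑ m ∈ range n, ff lam ρ m := by
  induction n with
  | zero =>
    simp only [range_zero, sum_empty, mul_zero, add_zero]
    by_cases h : 0 ∈ S
    · have e1 : ({a ∈ S | a ≤ 0} : Finset ℕ) = {0} := by
        ext x; rw [mem_filter, mem_singleton]
        constructor
        · rintro ⟨_, h2⟩; omega
        · rintro rfl; exact ⟨h, le_rfl⟩
      have e2 : cn S 0 = 1 := by unfold cn; rw [e1]; rfl
      rw [e1, Finset.sum_singleton, e2]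
      unfold wt VV
      norm_num
    · have e1 : ({a ∈ S | a ≤ 0} : Finset ℕ) = ∅ := by
        rw [Finset.filter_eq_empty_iff]
        intro x hx hx0
        have : x = 0 := by omega
        rw [this] at hx
        exact h hx
      rw [e1, Finset.sum_empty]
      exact mul_nonneg (VV_nonneg _) (ff_nonneg hl h0 _)
  | succ n ih =>
    rw [Finset.sum_range_succ, mul_add]
    have hge := ff_succ_ge hl h0 (x := n) (lam := lam) (ρ := ρ)
    have hV0 := VV_nonneg (cn S n)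
    have hV1 := VV_le_one (cn S n)
    have hf0 := ff_nonneg hl h0 n (lam := lam) (ρ := ρ)
    have hτ : 0 ≤ 1 - ρ := by linarith
    have hstep : VV (cn S n) * ff lam ρ n ≤ VV (cn S n) * ff lam ρ (n + 1) + (1 - ρ) * ff lam ρ n := by
      have a1 : VV (cn S n) * (ff lam ρ n - (1 - ρ) * ff lam ρ n) ≤ VV (cn S n) * ff lam ρ (n + 1) :=
        mul_le_mul_of_nonneg_left hge hV0
      have a2 : VV (cn S n) * ((1 - ρ) * ff lam ρ n) ≤ 1 * ((1 - ρ) * ff lam ρ n) :=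
        mul_le_mul_of_nonneg_right hV1 (mul_nonneg hτ hf0)
      linarith
    by_cases h : n + 1 ∈ S
    · have e1 : ({a ∈ S | a ≤ n + 1} : Finset ℕ) = insert (n + 1) {a ∈ S | a ≤ n} := by
        ext x; rw [mem_filter, mem_insert, mem_filter]
        constructor
        · rintro ⟨h2, h3⟩
          by_cases hx : x = n + 1
          · left; exact hx
          · right; exact ⟨h2, by omega⟩
        · rintro (rfl | ⟨h2, h3⟩)
          · exact ⟨h, le_rfl⟩
          · exact ⟨h2, by omega⟩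
      have hnot : n + 1 ∉ ({a ∈ S | a ≤ n} : Finset ℕ) := by
        rw [mem_filter]; omega
      have e2 : cn S (n + 1) = cn S n + 1 := by
        unfold cn; rw [e1, Finset.card_insert_of_notMem hnot]
      rw [e1, Finset.sum_insert hnot, e2, VV_succ]
      linarith
    · have e1 : ({a ∈ S | a ≤ n + 1} : Finset ℕ) = {a ∈ S | a ≤ n} := by
        ext x; rw [mem_filter, mem_filter]
        constructor
        · rintro ⟨h2, h3⟩
          refine ⟨h2, ?_⟩
          by_contra hx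
          have : x = n + 1 := by omega
          rw [this] at h2
          exact h h2
        · rintro ⟨h2, h3⟩
          exact ⟨h2, by omega⟩
      have e2 : cn S (n + 1) = cn S n := by unfold cn; rw [e1]
      rw [e1, e2]
      linarith

lemma equi {lam ρ : ℝ} (hl : 0 < lam) (h0 : 0 ≤ ρ) (h1 : ρ ≤ 1) (h : Sys S E L) :
    ∑ a ∈ S with cn S a % 3 ≠ 0, ff lam ρ a ≤
      (2 / 3) * ∑ a ∈ S, ff lam ρ a + ff lam ρ L + (1 - ρ) * ∑ m ∈ range L, ff lam ρ m := by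
  have h2 := equi_aux hl h0 h1 S L
  have e1 : ({a ∈ S | a ≤ L} : Finset ℕ) = S := by
    apply Finset.filter_true_of_mem
    exact h.le
  rw [e1] at h2
  have h3 : ∑ a ∈ S with cn S a % 3 ≠ 0, ff lam ρ a =
      (2 / 3) * ∑ a ∈ S, ff lam ρ a + ∑ a ∈ S, wt (cn S a) * ff lam ρ a := by
    rw [Finset.sum_filter, Finset.mul_sum, ← Finset.sum_add_distrib]
    apply Finset.sum_congr rfl
    intro a _
    unfold wt
    by_cases hc : cn S a % 3 = 0
    · simp only [hc, ne_eq, not_true_eq_false, if_false, if_true]; ring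
    · simp only [hc, ne_eq, not_false_eq_true, if_true, if_false]; ring
  have h4 : VV (cn S L) * ff lam ρ L ≤ 1 * ff lam ρ L :=
    mul_le_mul_of_nonneg_right (VV_le_one _) (ff_nonneg hl h0 _)
  linarith

lemma sum_ff (S : Finset ℕ) (lam ρ : ℝ) : ∑ a ∈ S, ff lam ρ a = lam * FF ρ S + GG ρ S / lam := by
  unfold ff FF GG
  rw [Finset.mul_sum, Finset.sum_div, ← Finset.sum_add_distrib]
  apply Finset.sum_congr rfl
  intro a _
  ring

/-- geometric block -/
lemma block {ρ D : ℝ} (h0 : 0 ≤ ρ) (h1 : ρ ≤ 1) (hD : 0 ≤ D) {C : Finset ℕ} {n0 : ℕ}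
    (hmin : ∀ n ∈ C, n0 ≤ n) (hb : ∀ n ∈ C, (n : ℝ) - n0 ≤ D) :
    ∑ n ∈ C, ρ ^ n ≤ ρ ^ n0 * (D + 1) := by
  have h2 : #C ≤ ⌊D⌋₊ + 1 := by
    have : C ⊆ Icc n0 (n0 + ⌊D⌋₊) := by
      intro n hn
      rw [mem_Icc]
      refine ⟨hmin n hn, ?_⟩
      have h3 := hb n hn
      have h4 := hmin n hn
      have h5 : ((n - n0 : ℕ) : ℝ) ≤ D := by
        rw [Nat.cast_sub h4]; exact h3
      have h6 := Nat.le_floor h5
      omega
    have := Finset.card_le_card this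
    rw [Nat.card_Icc] at this
    omega
  have h3 : (#C : ℝ) ≤ D + 1 := by
    have h4 : ((#C : ℕ) : ℝ) ≤ ((⌊D⌋₊ + 1 : ℕ) : ℝ) := by exact_mod_cast h2
    have := Nat.floor_le hD
    push_cast at h4
    linarith
  calc ∑ n ∈ C, ρ ^ n ≤ ∑ n ∈ C, ρ ^ n0 := by
        apply Finset.sum_le_sum
        intro n hn
        exact pow_le_pow_of_le_one h0 h1 (hmin n hn)
    _ = #C * ρ ^ n0 := by rw [Finset.sum_const, nsmul_eq_mul]
    _ ≤ (D + 1) * ρ ^ n0 := mul_le_mul_of_nonneg_right h3 (pow_nonneg h0 _)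
    _ = ρ ^ n0 * (D + 1) := by ring

lemma gap_bound {lam ρ κ : ℝ} (hl : 0 < lam) (h0 : 0 ≤ ρ) (h1 : ρ ≤ 1) (hκ : 0 ≤ κ) {a : ℕ}
    {C : Finset ℕ} (hC : ∀ n ∈ C, n ≤ L ∧ a ≤ n ∧ cn S n = cn S a)
    (hd : ∀ m ∈ C, ∀ n ∈ C, m ≤ n → (n : ℝ) - m ≤ κ * (lam + m / lam)) :
    ∑ n ∈ C, ρ ^ n ≤ κ * (ff lam ρ a + (1 / lam) * ∑ m ∈ gp S L a, ρ ^ m) + ρ ^ a := by
  have hnn : 0 ≤ κ * (ff lam ρ a + (1 / lam) * ∑ m ∈ gp S L a, ρ ^ m) := by
    apply mul_nonneg hκ
    apply add_nonneg (ff_nonneg hl h0 _)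
    apply mul_nonneg (by positivity)
    exact Finset.sum_nonneg fun _ _ => pow_nonneg h0 _
  rcases C.eq_empty_or_nonempty with hE | hne
  · rw [hE, Finset.sum_empty]
    have := pow_nonneg h0 a
    linarith
  · set n0 := C.min' hne with hn0
    have hmem : n0 ∈ C := Finset.min'_mem _ _
    obtain ⟨b1, b2, b3⟩ := hC n0 hmem
    have hD : 0 ≤ κ * (lam + n0 / lam) := by positivity
    have hb := block h0 h1 hD (C := C) (n0 := n0) (fun n hn => Finset.min'_le _ _ hn)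
      (fun n hn => hd n0 hmem n hn (Finset.min'_le _ _ hn))
    have h2 : ρ ^ n0 * (κ * (lam + n0 / lam) + 1) = κ * ff lam ρ n0 + ρ ^ n0 := by
      unfold ff; ring
    have h3 := ff_le_of_le hl h0 h1 b2
    have h4 : ∑ m ∈ Ico a n0, ρ ^ m ≤ ∑ m ∈ gp S L a, ρ ^ m := by
      apply Finset.sum_le_sum_of_subset_of_nonneg
      · intro m hm
        rw [mem_Ico] at hm
        unfold gp
        rw [mem_filter, mem_range]
        refine ⟨by omega, hm.1, ?_⟩
        have c1 := cn_mono S hm.1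
        have c2 := cn_mono S hm.2.le
        omega
      · intro _ _ _
        exact pow_nonneg h0 _
    have h5 : ρ ^ n0 ≤ ρ ^ a := pow_le_pow_of_le_one h0 h1 b2
    have h6 : (1 / lam) * ∑ m ∈ Ico a n0, ρ ^ m ≤ (1 / lam) * ∑ m ∈ gp S L a, ρ ^ m :=
      mul_le_mul_of_nonneg_left h4 (by positivity)
    have h7 : κ * ff lam ρ n0 ≤ κ * (ff lam ρ a + (1 / lam) * ∑ m ∈ gp S L a, ρ ^ m) :=
      mul_le_mul_of_nonneg_left (by linarith) hκ
    linarith

end Pool.Agent.Helper995.U3
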