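import Mathlib
import Pool.Agent.Helper995.U1
import Pool.Agent.Helper995.U2
import Pool.Agent.Helper995.U3

set_option autoImplicit false

namespace Pool.Agent.Helper995.U4
open Finset Pool.Agent.Helper995.U1 Pool.Agent.Helper995.U2 Pool.Agent.Helper995.U3

variable {S E : Finset ℕ} {L : ℕ}

/-- the good integers -/
def Gs (S E : Finset ℕ) (L B : ℕ) : Finset ℕ :=
  {n ∈ range (L + 1) | B ≤ n ∧ (∀ a ∈ S, a ≤ n → n - a ∉ E) ∧ (∀ a ∈ S, 3 * a ≠ n)}

lemma mem_Gs {B n : ℕ} : n ∈ Gs S E L B ↔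
    n ≤ L ∧ B ≤ n ∧ (∀ a ∈ S, a ≤ n → n - a ∉ E) ∧ (∀ a ∈ S, 3 * a ≠ n) := by
  unfold Gs
  rw [mem_filter, mem_range, Nat.lt_succ_iff]

def Ph (S : Finset ℕ) (n : ℕ) : ℤ := (cn S n : ℤ) * n - 3 * sm S n

def C2 (S E : Finset ℕ) (L B : ℕ) : Finset ℕ :=
  {n ∈ Gs S E L B | cn S n % 3 = 2 ∧ -(n : ℤ) ≤ Ph S n ∧ 2 * Ph S n ≤ n}

def C1 (S E : Finset ℕ) (L B : ℕ) : Finset ℕ :=
  {n ∈ Gs S E L B | cn S n % 3 = 1 ∧ -(2 * n : ℤ) ≤ Ph S n ∧ Ph S n ≤ n}

def C0 (S E : Finset ℕ) (L B : ℕ) : Finset ℕ :=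
  {n ∈ Gs S E L B | cn S n % 3 = 0 ∧ Ph S n = 0}

lemma cost (h : Sys S E L) {B n : ℕ} (hn : n ∈ Gs S E L B) :
    (3 : ℝ) ≤ ss S n + 2 * (if n ∈ C2 S E L B then 1 else 0) + (if n ∈ C1 S E L B then 1 else 0) +
      3 * (if n ∈ C0 S E L B then 1 else 0) := by
  have hn' := mem_Gs.mp hn
  obtain ⟨hL, _, hg, h3⟩ := hn'
  have hmod := (structure_facts h hL hg h3).1
  obtain ⟨hb1, hb2⟩ := phi_bounds h hL hg h3
  have hP : Ph S n = (cn S n : ℤ) * n - 3 * sm S n := rfl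
  rw [← hP] at hb1 hb2
  have i1 : (0 : ℝ) ≤ (if n ∈ C2 S E L B then 1 else 0) := by split_ifs <;> norm_num
  have i2 : (0 : ℝ) ≤ (if n ∈ C1 S E L B then 1 else 0) := by split_ifs <;> norm_num
  have i3 : (0 : ℝ) ≤ (if n ∈ C0 S E L B then 1 else 0) := by split_ifs <;> norm_num
  by_cases hs : 3 ≤ ss S n
  · have : (3 : ℝ) ≤ ss S n := by exact_mod_cast hs
    linarith
  · have hcases : ss S n = 0 ∨ ss S n = 1 ∨ ss S n = 2 := by omega
    rcases hcases with h0 | h0 | h0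
    · have hm : n ∈ C0 S E L B := by
        unfold C0
        rw [mem_filter]
        refine ⟨hn, by omega, ?_⟩
        rw [h0] at hb1 hb2
        push_cast at hb1 hb2
        omega
      rw [if_pos hm] at i3 ⊢
      rw [h0]
      push_cast
      linarith
    · have hm : n ∈ C2 S E L B := by
        unfold C2
        rw [mem_filter]
        refine ⟨hn, by omega, ?_, ?_⟩
        · rw [h0] at hb1
          push_cast at hb1
          omega
        · rw [h0] at hb2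
          push_cast at hb2
          omega
      rw [if_pos hm] at i1 ⊢
      rw [h0]
      push_cast
      linarith
    · have hm : n ∈ C1 S E L B := by
        unfold C1
        rw [mem_filter]
        refine ⟨hn, by omega, ?_, ?_⟩
        · rw [h0] at hb1
          push_cast at hb1
          omega
        · rw [h0] at hb2
          push_cast at hb2
          omega
      rw [if_pos hm] at i2 ⊢
      rw [h0]
      push_cast
      linarith

lemma ind_sum {X C : Finset ℕ} (hC : C ⊆ X) (g : ℕ → ℝ) :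
    ∑ n ∈ X, g n * (if n ∈ C then 1 else 0) = ∑ n ∈ C, g n := by
  simp only [mul_ite, mul_one, mul_zero]
  rw [← Finset.sum_filter, Finset.filter_mem_eq_inter, Finset.inter_eq_right.mpr hC]

lemma cost_sum {ρ : ℝ} (h0 : 0 ≤ ρ) (h : Sys S E L) (B : ℕ) :
    3 * ∑ n ∈ Gs S E L B, ρ ^ n ≤ ∑ n ∈ Gs S E L B, ρ ^ n * ss S n +
      2 * ∑ n ∈ C2 S E L B, ρ ^ n + ∑ n ∈ C1 S E L B, ρ ^ n + 3 * ∑ n ∈ C0 S E L B, ρ ^ n := by
  rw [← ind_sum (X := Gs S E L B) (C := C2 S E L B) (Finset.filter_subset _ _) (fun n => ρ ^ n),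
    ← ind_sum (X := Gs S E L B) (C := C1 S E L B) (Finset.filter_subset _ _) (fun n => ρ ^ n),
    ← ind_sum (X := Gs S E L B) (C := C0 S E L B) (Finset.filter_subset _ _) (fun n => ρ ^ n),
    Finset.mul_sum, Finset.mul_sum, Finset.mul_sum, ← Finset.sum_add_distrib,
    ← Finset.sum_add_distrib, ← Finset.sum_add_distrib]
  apply Finset.sum_le_sum
  intro n hn
  have := mul_le_mul_of_nonneg_left (cost h hn) (pow_nonneg h0 n)
  linarith

lemma ss_sum {ρ : ℝ} (h0 : 0 ≤ ρ) (M : Finset ℕ) :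
    ∑ n ∈ M, ρ ^ n * ss S n ≤ FF ρ S * F2 ρ S := by
  rw [← fiber_ss S M (fun n => ρ ^ n)]
  have e1 : FF ρ S * F2 ρ S = ∑ p ∈ S ×ˢ S, ρ ^ (p.1 + 2 * p.2) := by
    unfold FF F2
    rw [Finset.sum_mul_sum, ← Finset.sum_product']
    apply Finset.sum_congr rfl
    intro p _
    rw [pow_add]
  rw [e1]
  apply Finset.sum_le_sum_of_subset_of_nonneg (Finset.filter_subset _ _)
  intro _ _ _
  exact pow_nonneg h0 _

lemma Gs_sum {ρ : ℝ} (h0 : 0 ≤ ρ) (h1 : ρ ≤ 1) (B : ℕ) :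
    ∑ m ∈ range (L + 1), ρ ^ m ≤ ∑ m ∈ Gs S E L B, ρ ^ m + B + #E * FF ρ S + FF ρ S := by
  have hsub : range (L + 1) ⊆ ((Gs S E L B ∪ range B) ∪ (S ×ˢ E).image (fun p => p.1 + p.2)) ∪
      S.image (fun a => 3 * a) := by
    intro n hn
    rw [mem_range] at hn
    by_cases c1 : B ≤ n
    · by_cases c2 : ∀ a ∈ S, a ≤ n → n - a ∉ E
      · by_cases c3 : ∀ a ∈ S, 3 * a ≠ n
        · apply mem_union_left
          apply mem_union_left
          apply mem_union_left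
          rw [mem_Gs]
          exact ⟨by omega, c1, c2, c3⟩
        · push Not at c3
          obtain ⟨a, ha, hna⟩ := c3
          apply mem_union_right
          rw [mem_image]
          exact ⟨a, ha, hna⟩
      · push Not at c2
        obtain ⟨a, ha, han, hE⟩ := c2
        apply mem_union_left
        apply mem_union_right
        rw [mem_image]
        refine ⟨(a, n - a), ?_, ?_⟩
        · rw [mem_product]; exact ⟨ha, hE⟩
        · show a + (n - a) = n; omega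
    · apply mem_union_left
      apply mem_union_left
      apply mem_union_right
      rw [mem_range]; omega
  have hu : ∀ X Y : Finset ℕ, ∑ m ∈ X ∪ Y, ρ ^ m ≤ ∑ m ∈ X, ρ ^ m + ∑ m ∈ Y, ρ ^ m := by
    intro X Y
    rw [← Finset.sum_union_inter]
    have : 0 ≤ ∑ m ∈ X ∩ Y, ρ ^ m := Finset.sum_nonneg fun _ _ => pow_nonneg h0 _
    linarith
  have s1 := Finset.sum_le_sum_of_subset_of_nonneg hsub (fun (m : ℕ) _ _ => pow_nonneg h0 m)
  have s2 := hu ((Gs S E L B ∪ range B) ∪ (S ×ˢ E).image (fun p => p.1 + p.2)) (S.image (fun a => 3 * a))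
  have s3 := hu (Gs S E L B ∪ range B) ((S ×ˢ E).image (fun p => p.1 + p.2))
  have s4 := hu (Gs S E L B) (range B)
  have s5 : ∑ m ∈ S.image (fun a => 3 * a), ρ ^ m ≤ FF ρ S := by
    refine (Finset.sum_image_le_of_nonneg (fun _ _ => pow_nonneg h0 _)).trans ?_
    unfold FF
    apply Finset.sum_le_sum
    intro a _
    exact pow_le_pow_of_le_one h0 h1 (by omega)
  have s6 : ∑ m ∈ (S ×ˢ E).image (fun p => p.1 + p.2), ρ ^ m ≤ #E * FF ρ S := by
    refine (Finset.sum_image_le_of_nonneg (fun _ _ => pow_nonneg h0 _)).trans ?_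
    rw [Finset.sum_product_right]
    unfold FF
    rw [← nsmul_eq_mul, ← Finset.sum_const]
    apply Finset.sum_le_sum
    intro e _
    apply Finset.sum_le_sum
    intro a _
    exact pow_le_pow_of_le_one h0 h1 (by simp)
  have s7 : ∑ m ∈ range B, ρ ^ m ≤ B := by
    calc ∑ m ∈ range B, ρ ^ m ≤ ∑ m ∈ range B, (1 : ℝ) := Finset.sum_le_sum fun m _ => pow_le_one₀ h0 h1
      _ = B := by simp
  linarith

/-- large `n` have large counting function -/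
lemma cn_big (h : Sys S E L) {n : ℕ} (hn : n ≤ L) (hB : 100000 * #E ≤ n) :
    2 ≤ cn S n ∧ 100 * (n : ℝ) ≤ 51 * ((cn S n : ℝ) - 1) ^ 2 := by
  have h1 := cn_lower h hn
  have hE1 : 1 ≤ #E := Finset.card_pos.mpr ⟨0, h.zero⟩
  have hE : (1 : ℝ) ≤ #E := by exact_mod_cast hE1
  have hBr : 100000 * (#E : ℝ) ≤ n := by exact_mod_cast hB
  have hj2 : 2 ≤ cn S n := by
    by_contra hcon
    have h2 : (cn S n : ℝ) ≤ 1 := by
      have : cn S n ≤ 1 := by omega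
      exact_mod_cast this
    have h3 : (0 : ℝ) ≤ cn S n := by positivity
    nlinarith
  refine ⟨hj2, ?_⟩
  have hj : (2 : ℝ) ≤ cn S n := by exact_mod_cast hj2
  set u : ℝ := (cn S n : ℝ) - 1 with hu
  have hcn : (cn S n : ℝ) = u + 1 := by rw [hu]; ring
  rw [hcn] at h1
  by_contra hcon
  push Not at hcon
  have hu1 : 1 ≤ u := by linarith
  have hn1 : (100000 : ℝ) ≤ n := by linarith
  -- 153 u > 1.99 n
  have h4 : 1.99 * (n : ℝ) ≤ 153 * u := by nlinarith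
  have h5 : (n : ℝ) ≤ 77 * u := by linarith
  have h6 : 100000 * u ≤ 77 * u * u := by nlinarith
  nlinarith

lemma key_ineq {lam β : ℝ} (hl : 0 < lam) (hβ0 : 0 ≤ β) (hβ : 51 ≤ 400 * β ^ 2) {n j : ℝ} (hn : 0 ≤ n)
    (hj : 1 ≤ j) (h : 100 * n ≤ 51 * (j - 1) ^ 2) : n ≤ β * (lam + n / lam) * (j - 1) := by
  have hX : 0 ≤ β * (lam + n / lam) * (j - 1) := by
    apply mul_nonneg (by positivity) (by linarith)
  have h1 : 4 * n ≤ (lam + n / lam) ^ 2 := by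
    have : (lam + n / lam) ^ 2 - 4 * n = (lam - n / lam) ^ 2 := by
      field_simp
      ring
    nlinarith [sq_nonneg (lam - n / lam)]
  have h2 : n ^ 2 ≤ (β * (lam + n / lam) * (j - 1)) ^ 2 := by
    have e : (β * (lam + n / lam) * (j - 1)) ^ 2 = (lam + n / lam) ^ 2 * (β ^ 2 * (j - 1) ^ 2) := by ring
    rw [e]
    have h3 : 4 * n * (β ^ 2 * (j - 1) ^ 2) ≤ (lam + n / lam) ^ 2 * (β ^ 2 * (j - 1) ^ 2) :=
      mul_le_mul_of_nonneg_right h1 (by positivity)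
    have h4 : n ≤ 4 * (β ^ 2 * (j - 1) ^ 2) := by
      have h5 : 51 * (j - 1) ^ 2 ≤ 400 * β ^ 2 * (j - 1) ^ 2 := mul_le_mul_of_nonneg_right hβ (by positivity)
      linarith
    nlinarith
  exact (pow_le_pow_iff_left₀ hn hX (by norm_num)).mp h2

/-- per element bounds -/
lemma C2_gap {lam ρ β : ℝ} (hl : 0 < lam) (h0 : 0 ≤ ρ) (h1 : ρ ≤ 1) (hβ0 : 0 ≤ β)
    (hβ : 51 ≤ 400 * β ^ 2) (h : Sys S E L) {B : ℕ} (hB : 100000 * #E ≤ B) (a : ℕ) :
    ∑ n ∈ C2 S E L B with a ≤ n ∧ cn S n = cn S a, ρ ^ n ≤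
      (3 / 2 * β) * (ff lam ρ a + (1 / lam) * ∑ m ∈ gp S L a, ρ ^ m) + ρ ^ a := by
  apply gap_bound hl h0 h1 (by positivity)
  · intro n hn
    rw [mem_filter, C2, mem_filter, mem_Gs] at hn
    exact ⟨hn.1.1.1, hn.2.1, hn.2.2⟩
  · intro m hm n hn hmn
    rw [mem_filter, C2, mem_filter, mem_Gs] at hm hn
    obtain ⟨⟨⟨hmL, hmB, _, _⟩, _, hm1, hm2⟩, ham, hmc⟩ := hm
    obtain ⟨⟨⟨hnL, hnB, _, _⟩, _, hn1, hn2⟩, han, hnc⟩ := hn
    obtain ⟨hj2, hjb⟩ := cn_big h hmL (by omega)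
    unfold Ph at hm1 hn2
    rw [sm_eq ham hmc] at hm1
    rw [sm_eq han hnc, hnc] at hn2
    rw [hmc] at hm1 hj2 hjb
    set j := cn S a with hj
    have hjr : (2 : ℝ) ≤ j := by exact_mod_cast hj2
    have r1 : -(m : ℝ) ≤ (j : ℝ) * m - 3 * sm S a := by exact_mod_cast hm1
    have r2 : 2 * ((j : ℝ) * n - 3 * sm S a) ≤ n := by exact_mod_cast hn2
    have hk := key_ineq hl hβ0 hβ (n := (m : ℝ)) (j := (j : ℝ)) (by positivity) (by linarith) hjb
    have h5 : (2 * (j : ℝ) - 1) * (n - m) ≤ (2 * (j : ℝ) - 1) * (3 / 2 * β * (lam + m / lam)) := by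
      have h6 : 0 ≤ β * (lam + m / lam) := by positivity
      nlinarith
    exact le_of_mul_le_mul_left h5 (by linarith)

lemma C1_gap {lam ρ β : ℝ} (hl : 0 < lam) (h0 : 0 ≤ ρ) (h1 : ρ ≤ 1) (hβ0 : 0 ≤ β)
    (hβ : 51 ≤ 400 * β ^ 2) (h : Sys S E L) {B : ℕ} (hB : 100000 * #E ≤ B) (a : ℕ) :
    ∑ n ∈ C1 S E L B with a ≤ n ∧ cn S n = cn S a, ρ ^ n ≤
      (3 * β) * (ff lam ρ a + (1 / lam) * ∑ m ∈ gp S L a, ρ ^ m) + ρ ^ a := by
  apply gap_bound hl h0 h1 (by positivity)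
  · intro n hn
    rw [mem_filter, C1, mem_filter, mem_Gs] at hn
    exact ⟨hn.1.1.1, hn.2.1, hn.2.2⟩
  · intro m hm n hn hmn
    rw [mem_filter, C1, mem_filter, mem_Gs] at hm hn
    obtain ⟨⟨⟨hmL, hmB, _, _⟩, _, hm1, hm2⟩, ham, hmc⟩ := hm
    obtain ⟨⟨⟨hnL, hnB, _, _⟩, _, hn1, hn2⟩, han, hnc⟩ := hn
    obtain ⟨hj2, hjb⟩ := cn_big h hmL (by omega)
    unfold Ph at hm1 hn2
    rw [sm_eq ham hmc] at hm1
    rw [sm_eq han hnc, hnc] at hn2
    rw [hmc] at hm1 hj2 hjb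
    set j := cn S a with hj
    have hjr : (2 : ℝ) ≤ j := by exact_mod_cast hj2
    have r1 : -(2 * (m : ℝ)) ≤ (j : ℝ) * m - 3 * sm S a := by exact_mod_cast hm1
    have r2 : (j : ℝ) * n - 3 * sm S a ≤ n := by exact_mod_cast hn2
    have hk := key_ineq hl hβ0 hβ (n := (m : ℝ)) (j := (j : ℝ)) (by positivity) (by linarith) hjb
    have h5 : ((j : ℝ) - 1) * (n - m) ≤ ((j : ℝ) - 1) * (3 * β * (lam + m / lam)) := by
      nlinarith
    exact le_of_mul_le_mul_left h5 (by linarith)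

lemma C0_gap {lam ρ : ℝ} (hl : 0 < lam) (h0 : 0 ≤ ρ) (h1 : ρ ≤ 1) (h : Sys S E L) {B : ℕ}
    (hB : 100000 * #E ≤ B) (a : ℕ) :
    ∑ n ∈ C0 S E L B with a ≤ n ∧ cn S n = cn S a, ρ ^ n ≤ ρ ^ a := by
  have := gap_bound (S := S) (L := L) (κ := 0) hl h0 h1 le_rfl (a := a)
    (C := {n ∈ C0 S E L B | a ≤ n ∧ cn S n = cn S a}) ?_ ?_
  · simpa using this
  · intro n hn
    rw [mem_filter, C0, mem_filter, mem_Gs] at hn
    exact ⟨hn.1.1.1, hn.2.1, hn.2.2⟩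
  · intro m hm n hn hmn
    rw [mem_filter, C0, mem_filter, mem_Gs] at hm hn
    obtain ⟨⟨⟨hmL, hmB, _, _⟩, _, hm1⟩, ham, hmc⟩ := hm
    obtain ⟨⟨⟨hnL, hnB, _, _⟩, _, hn1⟩, han, hnc⟩ := hn
    obtain ⟨hj2, hjb⟩ := cn_big h hmL (by omega)
    unfold Ph at hm1 hn1
    rw [sm_eq ham hmc] at hm1
    rw [sm_eq han hnc, hnc] at hn1
    rw [hmc] at hm1 hj2 hjb
    set j := cn S a with hj
    have hjr : (2 : ℝ) ≤ j := by exact_mod_cast hj2
    have r1 : (j : ℝ) * m - 3 * sm S a = 0 := by exact_mod_cast hm1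
    have r2 : (j : ℝ) * n - 3 * sm S a = 0 := by exact_mod_cast hn1
    have h5 : (j : ℝ) * (n - m) = 0 := by linarith
    have h6 : (n : ℝ) - m = 0 := by
      rcases mul_eq_zero.mp h5 with h7 | h7
      · linarith
      · exact h7
    rw [zero_mul]
    exact h6.le

lemma sum_pred {B : ℕ} (h : Sys S E L) (hB : 100000 * #E ≤ B) {C : Finset ℕ} (hC : C ⊆ Gs S E L B)
    (g : ℕ → ℝ) (hg : ∀ x, 0 ≤ g x) :
    ∑ n ∈ C, g n ≤ ∑ a ∈ S, ∑ n ∈ C with a ≤ n ∧ cn S n = cn S a, g n := by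
  have : ∑ a ∈ S, ∑ n ∈ C with a ≤ n ∧ cn S n = cn S a, g n =
      ∑ n ∈ C, ∑ a ∈ S with a ≤ n ∧ cn S n = cn S a, g n := by
    simp only [Finset.sum_filter]
    rw [Finset.sum_comm]
  rw [this]
  apply Finset.sum_le_sum
  intro n hn
  have hn' := mem_Gs.mp (hC hn)
  obtain ⟨hj2, _⟩ := cn_big h hn'.1 (by omega)
  obtain ⟨a, ha, han, hc⟩ := exists_pred (S := S) (n := n) (by omega)
  rw [Finset.sum_const, nsmul_eq_mul]
  have h1 : 1 ≤ #{a ∈ S | a ≤ n ∧ cn S n = cn S a} := by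
    apply Finset.card_pos.mpr
    exact ⟨a, by rw [mem_filter]; exact ⟨ha, han, hc⟩⟩
  have h2 : (1 : ℝ) ≤ #{a ∈ S | a ≤ n ∧ cn S n = cn S a} := by exact_mod_cast h1
  nlinarith [hg n]

/-- the class sums together -/
lemma class_sum {lam ρ β T : ℝ} (hl : 0 < lam) (h0 : 0 ≤ ρ) (h1 : ρ ≤ 1) (hβ0 : 0 ≤ β)
    (hβ : 51 ≤ 400 * β ^ 2) (hT : (1 - ρ) * T = 1) (hTp : 0 < T) (h : Sys S E L) {B : ℕ}
    (hB : 100000 * #E ≤ B) :
    2 * ∑ n ∈ C2 S E L B, ρ ^ n + ∑ n ∈ C1 S E L B, ρ ^ n + 3 * ∑ n ∈ C0 S E L B, ρ ^ n ≤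
      3 * β * (∑ a ∈ S with cn S a % 3 ≠ 0, ff lam ρ a + (1 / lam) * T) + 3 * FF ρ S := by
  have a2 := sum_pred h hB (C := C2 S E L B) (Finset.filter_subset _ _) (fun n => ρ ^ n) (fun _ => pow_nonneg h0 _)
  have a1 := sum_pred h hB (C := C1 S E L B) (Finset.filter_subset _ _) (fun n => ρ ^ n) (fun _ => pow_nonneg h0 _)
  have a0 := sum_pred h hB (C := C0 S E L B) (Finset.filter_subset _ _) (fun n => ρ ^ n) (fun _ => pow_nonneg h0 _)
  have hper : ∀ a ∈ S, 2 * ∑ n ∈ C2 S E L B with a ≤ n ∧ cn S n = cn S a, ρ ^ n +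
      ∑ n ∈ C1 S E L B with a ≤ n ∧ cn S n = cn S a, ρ ^ n +
      3 * ∑ n ∈ C0 S E L B with a ≤ n ∧ cn S n = cn S a, ρ ^ n ≤
      (if cn S a % 3 ≠ 0 then 3 * β * ff lam ρ a else 0) + 3 * β * ((1 / lam) * ∑ m ∈ gp S L a, ρ ^ m) + 3 * ρ ^ a := by
    intro a _
    have b2 := C2_gap hl h0 h1 hβ0 hβ h hB a
    have b1 := C1_gap hl h0 h1 hβ0 hβ h hB a
    have b0 := C0_gap hl h0 h1 h hB a
    have hp : 0 ≤ ρ ^ a := pow_nonneg h0 _
    have hgp : 0 ≤ 3 * β * ((1 / lam) * ∑ m ∈ gp S L a, ρ ^ m) := by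
      have : 0 ≤ ∑ m ∈ gp S L a, ρ ^ m := Finset.sum_nonneg fun _ _ => pow_nonneg h0 _
      positivity
    have hfa : 0 ≤ ff lam ρ a := ff_nonneg hl h0 _
    have e2 : cn S a % 3 ≠ 2 → ∑ n ∈ C2 S E L B with a ≤ n ∧ cn S n = cn S a, ρ ^ n = 0 := by
      intro hc
      apply Finset.sum_eq_zero
      intro n hn
      exfalso
      rw [mem_filter, C2, mem_filter] at hn
      rw [hn.2.2] at hn
      exact hc hn.1.2.1
    have e1 : cn S a % 3 ≠ 1 → ∑ n ∈ C1 S E L B with a ≤ n ∧ cn S n = cn S a, ρ ^ n = 0 := by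
      intro hc
      apply Finset.sum_eq_zero
      intro n hn
      exfalso
      rw [mem_filter, C1, mem_filter] at hn
      rw [hn.2.2] at hn
      exact hc hn.1.2.1
    have e0 : cn S a % 3 ≠ 0 → ∑ n ∈ C0 S E L B with a ≤ n ∧ cn S n = cn S a, ρ ^ n = 0 := by
      intro hc
      apply Finset.sum_eq_zero
      intro n hn
      exfalso
      rw [mem_filter, C0, mem_filter] at hn
      rw [hn.2.2] at hn
      exact hc hn.1.2.1
    have hlt := Nat.mod_lt (cn S a) (by norm_num : 3 > 0)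
    have hcases : cn S a % 3 = 0 ∨ cn S a % 3 = 1 ∨ cn S a % 3 = 2 := by omega
    rcases hcases with hc | hc | hc
    · rw [e2 (by omega), e1 (by omega), if_neg (by omega)]
      linarith
    · rw [e2 (by omega), e0 (by omega), if_pos (by omega)]
      linarith
    · rw [e1 (by omega), e0 (by omega), if_pos (by omega)]
      linarith
  have hs := Finset.sum_le_sum hper
  rw [Finset.sum_add_distrib, Finset.sum_add_distrib, Finset.sum_add_distrib, Finset.sum_add_distrib,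
    ← Finset.mul_sum, ← Finset.mul_sum, ← Finset.mul_sum, ← Finset.mul_sum, ← Finset.mul_sum,
    ← Finset.sum_filter, ← Finset.mul_sum] at hs
  have hg := gp_sum S L (fun m => ρ ^ m) (fun _ => pow_nonneg h0 _)
  have hg2 := geo_le h0 hT hTp (L + 1)
  have hFF : ∑ a ∈ S, ρ ^ a = FF ρ S := rfl
  rw [hFF] at hs
  have hg3 : 3 * β * ((1 / lam) * ∑ a ∈ S, ∑ m ∈ gp S L a, ρ ^ m) ≤ 3 * β * ((1 / lam) * T) := by
    apply mul_le_mul_of_nonneg_left _ (by positivity)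
    apply mul_le_mul_of_nonneg_left _ (by positivity)
    exact hg.trans hg2
  linarith

/-- the master inequality -/
lemma master {lam ρ β T : ℝ} (hl : 0 < lam) (h0 : 0 ≤ ρ) (h1 : ρ ≤ 1) (hβ0 : 0 ≤ β)
    (hβ : 51 ≤ 400 * β ^ 2) (hT : (1 - ρ) * T = 1) (hTp : 0 < T) (h : Sys S E L) {B : ℕ}
    (hB : 100000 * #E ≤ B) :
    3 * (T * (1 - ρ ^ (L + 1))) ≤ FF ρ S * F2 ρ S + 2 * β * (lam * FF ρ S + GG ρ S / lam) +
      3 * β * ((lam + L / lam) + (lam + T / lam) + T / lam) + 3 * (B + #E * FF ρ S + FF ρ S) + 3 * FF ρ S := by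
  have a1 := cost_sum h0 h B
  have a2 := ss_sum (S := S) h0 (Gs S E L B)
  have a3 := Gs_sum (S := S) (E := E) (L := L) h0 h1 B
  rw [geo_eq hT (L + 1)] at a3
  have a4 := class_sum hl h0 h1 hβ0 hβ hT hTp h hB
  have a5 := equi hl h0 h1 h
  rw [sum_ff S lam ρ] at a5
  have a6 : ff lam ρ L ≤ lam + L / lam := by
    unfold ff
    have hp : ρ ^ L ≤ 1 := pow_le_one₀ h0 h1
    have : 0 ≤ lam + L / lam := by positivity
    nlinarith
  have a7 : (1 - ρ) * ∑ m ∈ range L, ff lam ρ m ≤ lam + T / lam := by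
    have e : ∑ m ∈ range L, ff lam ρ m = lam * ∑ m ∈ range L, ρ ^ m + (∑ m ∈ range L, (m : ℝ) * ρ ^ m) / lam := by
      unfold ff
      rw [Finset.mul_sum, Finset.sum_div, ← Finset.sum_add_distrib]
      apply Finset.sum_congr rfl
      intro m _
      ring
    have g0 := geo_le h0 hT hTp L
    have g1 := geo1_le h0 h1 hT hTp L
    have g2 : ∑ m ∈ range L, ff lam ρ m ≤ lam * T + T ^ 2 / lam := by
      rw [e]
      apply add_le_add
      · exact mul_le_mul_of_nonneg_left g0 hl.le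
      · exact div_le_div_of_nonneg_right g1 hl.le
    calc (1 - ρ) * ∑ m ∈ range L, ff lam ρ m ≤ (1 - ρ) * (lam * T + T ^ 2 / lam) :=
          mul_le_mul_of_nonneg_left g2 (by linarith)
      _ = ((1 - ρ) * T) * (lam + T / lam) := by ring
      _ = lam + T / lam := by rw [hT, one_mul]
  have a8 : 3 * β * (∑ a ∈ S with cn S a % 3 ≠ 0, ff lam ρ a + (1 / lam) * T) ≤
      3 * β * ((2 / 3) * (lam * FF ρ S + GG ρ S / lam) + (lam + L / lam) + (lam + T / lam) + T / lam) := by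
    apply mul_le_mul_of_nonneg_left _ (by positivity)
    have : (1 / lam) * T = T / lam := by ring
    rw [this]
    linarith
  linarith

end Pool.Agent.Helper995.U4
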