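import Mathlib
import Pool.Agent.Helper995.U1
import Pool.Agent.Helper995.U2
import Pool.Agent.Helper995.U3
import Pool.Agent.Helper995.U4

set_option autoImplicit false

namespace Pool.Agent.Helper995.U5
open Finset Pool.Agent.Helper995.U1 Pool.Agent.Helper995.U2 Pool.Agent.Helper995.U3 Pool.Agent.Helper995.U4

lemma pow_small {t : ℕ} (ht : 1 ≤ t) : (1 - 1 / (t : ℝ)) ^ (8 * t + 1) ≤ 1 / 256 := by
  have htr : (1 : ℝ) ≤ t := by exact_mod_cast ht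
  have h0 : 0 ≤ 1 - 1 / (t : ℝ) := by
    have : 1 / (t : ℝ) ≤ 1 := by
      rw [div_le_one (by linarith)]; exact htr
    linarith
  have h1 : 1 - 1 / (t : ℝ) ≤ 1 := by
    have : 0 ≤ 1 / (t : ℝ) := by positivity
    linarith
  have h2 : (1 - 1 / (t : ℝ)) ^ t ≤ 1 / 2 := by
    have h3 := Real.one_sub_div_pow_le_exp_neg (n := t) (t := 1) (by exact_mod_cast ht)
    refine h3.trans ?_
    rw [Real.exp_neg, ← one_div]
    apply one_div_le_one_div_of_le (by norm_num)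
    have := Real.add_one_le_exp 1
    linarith
  calc (1 - 1 / (t : ℝ)) ^ (8 * t + 1) ≤ (1 - 1 / (t : ℝ)) ^ (8 * t) := pow_le_pow_of_le_one h0 h1 (by omega)
    _ = ((1 - 1 / (t : ℝ)) ^ t) ^ 8 := by rw [← pow_mul, mul_comm]
    _ ≤ (1 / 2) ^ 8 := pow_le_pow_left₀ (pow_nonneg h0 _) h2 8
    _ = 1 / 256 := by norm_num

lemma arith1 {R F q : ℝ} (hR0 : 0 < R) (hF0 : 0 ≤ F) (hq : q ≤ R / 1000)
    (e1 : F ^ 2 ≤ 2 * R ^ 2 + q * F) : F ≤ 1.416 * R := by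
  by_contra hcon
  push Not at hcon
  have : q * F ≤ R / 1000 * F := mul_le_mul_of_nonneg_right hq hF0
  nlinarith

lemma arith2 {R F q : ℝ} (hR6 : 1000000 ≤ R) (hF0 : 0 ≤ F) (hq : q ≤ R / 1000)
    (e1 : F ^ 2 ≤ R ^ 2 + 1 + q * F) : F ≤ 1.002 * R := by
  by_contra hcon
  push Not at hcon
  have h3 : q * F ≤ R / 1000 * F := mul_le_mul_of_nonneg_right hq hF0
  have h4 : F ^ 2 - R / 1000 * F ≤ R ^ 2 + 1 := by linarith
  have h5 : 1.003 * R ^ 2 ≤ F ^ 2 - R / 1000 * F := by nlinarith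
  nlinarith

lemma arith3 {R F F' q p : ℝ} (hR6 : 1000000 ≤ R) (hF0 : 0 ≤ F) (hq : q ≤ R / 1000)
    (hF' : F' ≤ 1.002 * R) (hp : p ≤ 1 / 256)
    (e1 : 2 * R ^ 2 * (1 - p) - 2 * q - F' ≤ F ^ 2) : 1.41 * R ≤ F := by
  by_contra hcon
  push Not at hcon
  have h3 : 2 * R ^ 2 * (255 / 256) ≤ 2 * R ^ 2 * (1 - p) := by
    apply mul_le_mul_of_nonneg_left _ (by positivity)
    linarith
  have h4 : F ^ 2 ≤ (1.41 * R) ^ 2 := pow_le_pow_left₀ hF0 hcon.le 2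
  have h5 : (1.41 * R) ^ 2 = 1.9881 * R ^ 2 := by rw [mul_pow]; norm_num
  have h7 : 1000000 * R ≤ R ^ 2 := by
    rw [sq]
    exact mul_le_mul_of_nonneg_right hR6 (by linarith)
  rw [h5] at h4
  linarith

lemma arith4 {R F G q : ℝ} (hR0 : 0 < R) (hG0 : 0 ≤ G) (hq : q ≤ R / 1000)
    (b3 : 1.41 * R ≤ F) (e4 : G * F ≤ (R ^ 2) ^ 2 + q * G) : G ≤ 0.7098 * R ^ 3 := by
  have h3 : G * (1.409 * R) ≤ R ^ 3 * R := by
    have h4 : G * (1.409 * R) ≤ G * (F - q) := by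
      apply mul_le_mul_of_nonneg_left _ hG0
      linarith
    have h5 : R ^ 3 * R = (R ^ 2) ^ 2 := by ring
    rw [h5]
    linarith
  have h6 : G * 1.409 ≤ R ^ 3 := by
    have h7 : (G * 1.409) * R ≤ R ^ 3 * R := by linarith
    exact le_of_mul_le_mul_right h7 hR0
  have h8 : 0 ≤ R ^ 3 := by positivity
  linarith

lemma arith5 {R F F' G q p : ℝ} (hR6 : 1000000 ≤ R) (hF0 : 0 ≤ F) (hF'0 : 0 ≤ F')
    (hq : q ≤ R / 1000) (hp : p ≤ 1 / 256) (b1 : F ≤ 1.416 * R) (b2 : F' ≤ 1.002 * R)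
    (b4 : G ≤ 0.7098 * R ^ 3)
    (hm : 3 * (R ^ 2 * (1 - p)) ≤ F * F' + 2 * 0.3572 * (0.707 * R * F + G / (0.707 * R)) +
      3 * 0.3572 * ((0.707 * R + 8 * R ^ 2 / (0.707 * R)) + (0.707 * R + R ^ 2 / (0.707 * R)) +
        R ^ 2 / (0.707 * R)) + 3 * (100000 * q + q * F + F) + 3 * F) : False := by
  have hR0 : 0 < R := by linarith
  have hlam : 0 < 0.707 * R := by positivity
  have c1 : F * F' ≤ 1.418832 * R ^ 2 := by
    calc F * F' ≤ (1.416 * R) * (1.002 * R) := mul_le_mul b1 b2 hF'0 (by positivity)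
      _ = 1.418832 * R ^ 2 := by ring
  have c2 : 0.707 * R * F ≤ 1.001112 * R ^ 2 := by
    calc 0.707 * R * F ≤ 0.707 * R * (1.416 * R) := mul_le_mul_of_nonneg_left b1 (by positivity)
      _ = 1.001112 * R ^ 2 := by ring
  have c3 : G / (0.707 * R) ≤ 1.004 * R ^ 2 := by
    rw [div_le_iff₀ hlam]
    have : 0 ≤ R ^ 3 := by positivity
    have e : 1.004 * R ^ 2 * (0.707 * R) = 0.709828 * R ^ 3 := by ring
    rw [e]
    linarith
  have c4 : R ^ 2 / (0.707 * R) ≤ 1.415 * R := by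
    rw [div_le_iff₀ hlam]
    nlinarith [sq_nonneg R]
  have c5 : 8 * R ^ 2 / (0.707 * R) ≤ 11.32 * R := by
    rw [div_le_iff₀ hlam]
    nlinarith [sq_nonneg R]
  have c6 : q * F ≤ 0.001416 * R ^ 2 := by
    calc q * F ≤ (R / 1000) * (1.416 * R) := mul_le_mul hq b1 hF0 (by positivity)
      _ = 0.001416 * R ^ 2 := by ring
  have c7 : 3 * (R ^ 2 * (255 / 256)) ≤ 3 * (R ^ 2 * (1 - p)) := by
    apply mul_le_mul_of_nonneg_left _ (by norm_num)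
    apply mul_le_mul_of_nonneg_left _ (by positivity)
    linarith
  have c8 : 1000000 * R ≤ R ^ 2 := by
    rw [sq]
    exact mul_le_mul_of_nonneg_right hR6 hR0.le
  linarith

/-- the finite theorem -/
theorem finite_thm {S E : Finset ℕ} {t : ℕ} (ht : 1000000000000 ≤ t) (h : Sys S E (8 * t))
    (hq : (#E : ℝ) ≤ √(t : ℝ) / 1000) : False := by
  have ht1 : 1 ≤ t := le_trans (by norm_num) ht
  have htr : (1000000000000 : ℝ) ≤ t := by exact_mod_cast ht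
  have hpow := pow_small ht1
  obtain ⟨R, hR0, hR2, hR6, hqR⟩ : ∃ R : ℝ, 0 < R ∧ R ^ 2 = (t : ℝ) ∧ 1000000 ≤ R ∧ (#E : ℝ) ≤ R / 1000 := by
    have h6 : (1000000 : ℝ) ≤ √(t : ℝ) := by
      apply Real.le_sqrt_of_sq_le
      norm_num
      exact ht
    exact ⟨√(t : ℝ), by linarith, Real.sq_sqrt (by positivity), h6, hq⟩
  have hTp : 0 < R ^ 2 := by positivity
  have hR2' : 1000000000000 ≤ R ^ 2 := by rw [hR2]; exact htr
  obtain ⟨ρ, hρ⟩ : ∃ ρ : ℝ, ρ = 1 - 1 / R ^ 2 := ⟨_, rfl⟩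
  have hT1 : 1 / R ^ 2 ≤ 1 := by
    rw [div_le_one hTp]
    linarith
  have h0 : 0 ≤ ρ := by rw [hρ]; linarith
  have hinv : 0 < 1 / R ^ 2 := by positivity
  have h1 : ρ ≤ 1 := by rw [hρ]; linarith
  have hT : (1 - ρ) * R ^ 2 = 1 := by
    rw [hρ, sub_sub_cancel, one_div, inv_mul_cancel₀ hTp.ne']
  have hp : ρ ^ (8 * t + 1) ≤ 1 / 256 := by
    rw [hρ, hR2]; exact hpow
  have hF0 : 0 ≤ FF ρ S := FF_nonneg h0 S
  have hF'0 : 0 ≤ F2 ρ S := F2_nonneg h0 S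
  have hG0 : 0 ≤ GG ρ S := GG_nonneg h0 S
  have b1 := arith1 hR0 hF0 hqR (FF_sq_le h h0 h1 hT hTp)
  have h2T : 0 < 2 * R ^ 2 - 1 := by linarith
  have hT2 : (1 - ρ ^ 2) * ((R ^ 2) ^ 2 / (2 * R ^ 2 - 1)) = 1 := by
    have h3 : 1 - ρ ^ 2 = (2 * R ^ 2 - 1) / (R ^ 2) ^ 2 := by
      rw [hρ]
      field_simp
      ring
    rw [h3, div_mul_div_comm, mul_comm (2 * R ^ 2 - 1) ((R ^ 2) ^ 2)]
    apply div_self
    exact mul_ne_zero (by positivity) h2T.ne'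
  have hT2p : 0 < (R ^ 2) ^ 2 / (2 * R ^ 2 - 1) := by
    apply div_pos (by positivity) h2T
  have hT2le : 2 * ((R ^ 2) ^ 2 / (2 * R ^ 2 - 1)) ≤ R ^ 2 + 1 := by
    rw [← mul_div_assoc, div_le_iff₀ h2T]
    nlinarith
  have e2 := F2_sq_le h h0 h1 hT2 hT2p
  have b2 := arith2 hR6 hF'0 hqR (by linarith)
  have b3 := arith3 hR6 hF0 hqR b2 hp (FF_sq_ge h h0 h1 hT)
  have b4 := arith4 hR0 hG0 hqR b3 (GG_FF_le h h0 h1 hT hTp)
  have hlam : (0 : ℝ) < 0.707 * R := by positivity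
  have hm := master (lam := 0.707 * R) (β := 0.3572) hlam h0 h1 (by norm_num) (by norm_num) hT hTp h
    (B := 100000 * #E) le_rfl
  push_cast at hm
  rw [← hR2] at hm
  exact arith5 hR6 hF0 hF'0 hqR hp b1 b2 b4 hm

end Pool.Agent.Helper995.U5
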