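import Mathlib
import Pool.Agent.Helper995.U1
import Pool.Agent.Helper995.U5

set_option autoImplicit false

namespace Pool.Agent.Helper995.U6
open Finset Pool.Agent.Helper995.U1 Pool.Agent.Helper995.U5

/-- `n` is uniquely represented as a sum of two elements of `A`. -/
def US (A : Set ℕ) (n : ℕ) : Prop :=
  ∃ p : ℕ × ℕ, p.1 ∈ A ∧ p.2 ∈ A ∧ p.1 + p.2 = n ∧
    ∀ a₁ ∈ A, ∀ a₂ ∈ A, a₁ + a₂ = n → (a₁ = p.1 ∧ a₂ = p.2) ∨ (a₁ = p.2 ∧ a₂ = p.1)

open Classical in
lemma mkSys (A : Set ℕ) (t : ℕ) :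
    Sys ({a ∈ range (8 * t + 1) | a ∈ A}) (insert 0 {n ∈ Icc 1 (16 * t) | ¬ US A n}) (8 * t) := by
  constructor
  · intro x hx
    rw [mem_filter, mem_range] at hx
    omega
  · exact mem_insert_self _ _
  · intro a ha b hb a' ha' b' hb' hs hE
    rw [mem_filter, mem_range] at ha hb ha' hb'
    rw [mem_insert, mem_filter, mem_Icc] at hE
    push Not at hE
    obtain ⟨p, _, _, _, hu⟩ := hE.2 (by omega)
    rcases hu a ha.2 b hb.2 rfl with h1 | h1 <;>
    rcases hu a' ha'.2 b' hb'.2 hs.symm with h2 | h2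
    · left; omega
    · right; omega
    · right; omega
    · left; omega
  · intro m hm hE
    rw [mem_insert, mem_filter, mem_Icc] at hE
    push Not at hE
    obtain ⟨p, hp1, hp2, hp3, _⟩ := hE.2 (by omega)
    refine ⟨p.1, ?_, p.2, ?_, hp3⟩
    · rw [mem_filter, mem_range]; exact ⟨by omega, hp1⟩
    · rw [mem_filter, mem_range]; exact ⟨by omega, hp2⟩

open Classical in
theorem core (A : Set ℕ) {N : ℕ} (hN : 17000000000000 ≤ N) :
    √(N : ℝ) / 10000 ≤ (#{n ∈ Icc 1 N | ¬ US A n} : ℝ) := by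
  by_contra hcon
  push Not at hcon
  obtain ⟨t, ht⟩ : ∃ t : ℕ, t = N / 16 := ⟨_, rfl⟩
  have ht1 : 1000000000000 ≤ t := by omega
  have ht2 : 16 * t ≤ N := by omega
  have ht3 : N ≤ 17 * t := by omega
  have htr : (1000000000000 : ℝ) ≤ t := by exact_mod_cast ht1
  have h6 : (1000000 : ℝ) ≤ √(t : ℝ) := by
    apply Real.le_sqrt_of_sq_le
    linarith
  have hsq : √(N : ℝ) ≤ 5 * √(t : ℝ) := by
    rw [Real.sqrt_le_left (by positivity), mul_pow, Real.sq_sqrt (by positivity)]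
    have h17 : (N : ℝ) ≤ 17 * t := by exact_mod_cast ht3
    have : (0 : ℝ) ≤ t := by positivity
    linarith
  apply finite_thm ht1 (mkSys A t)
  have hcard : #(insert 0 {n ∈ Icc 1 (16 * t) | ¬ US A n}) ≤ #{n ∈ Icc 1 N | ¬ US A n} + 1 := by
    refine (Finset.card_insert_le _ _).trans ?_
    apply Nat.add_le_add_right
    apply Finset.card_le_card
    intro n hn
    rw [mem_filter, mem_Icc] at hn ⊢
    exact ⟨⟨hn.1.1, by omega⟩, hn.2⟩
  have hcr : (#(insert 0 {n ∈ Icc 1 (16 * t) | ¬ US A n}) : ℝ) ≤ #{n ∈ Icc 1 N | ¬ US A n} + 1 := by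
    exact_mod_cast hcard
  linarith

end Pool.Agent.Helper995.U6
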